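import Pool.Agent.Y142.ZI.Stm
import Pool.Agent.Y142.ZO.Alg

/-!
# Project ZI: task SO
-/

set_option autoImplicit false

open Matrix Polynomial
open Pool.Agent.Y142.ZO

namespace Pool.Agent.Y142.ZI

section
variable {F : Type} [Field F] {N : ℕ} {B : Matrix (Fin N) (Fin N) F}

theorem bil_neg_left (x y : Fin N → F) : bil B (-x) y = -bil B x y := by
  unfold bil; rw [neg_dotProduct]

theorem wedge_add_right (a b c : Fin N → F) : wedge B a (b + c) = wedge B a b + wedge B a c := by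
  unfold wedge
  rw [add_vecMulVec, add_vecMul, vecMulVec_add]
  abel

theorem wedge_add_left (a b c : Fin N → F) : wedge B (a + b) c = wedge B a c + wedge B b c := by
  unfold wedge
  rw [add_vecMulVec, add_vecMul, vecMulVec_add]
  abel

theorem wedge_smul_right (s : F) (a b : Fin N → F) : wedge B a (s • b) = s • wedge B a b := by
  unfold wedge
  rw [smul_vecMulVec, smul_vecMul, vecMulVec_smul, smul_sub]

theorem wedge_smul_left (s : F) (a b : Fin N → F) : wedge B (s • a) b = s • wedge B a b := by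
  unfold wedge
  rw [smul_vecMulVec, smul_vecMul, vecMulVec_smul, smul_sub]

theorem wedge_self (a : Fin N → F) : wedge B a a = 0 := by
  unfold wedge
  rw [sub_self]

theorem wedge_antisymm (a b : Fin N → F) : wedge B a b = -wedge B b a := by
  unfold wedge
  rw [neg_sub]

theorem ext_mulVec {X Y : Matrix (Fin N) (Fin N) F} (h : ∀ x, X *ᵥ x = Y *ᵥ x) : X = Y := by
  ext i j
  have := congrFun (h (Pi.single j 1)) i
  simpa using this

theorem bracket_wedge (hB : Bᵀ = B) {Z : Matrix (Fin N) (Fin N) F} (hZ : Skew B Z)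
    (a b : Fin N → F) :
    Z * wedge B a b - wedge B a b * Z = wedge B (Z *ᵥ a) b + wedge B a (Z *ᵥ b) := by
  apply ext_mulVec
  intro x
  rw [sub_mulVec, add_mulVec, ← mulVec_mulVec, ← mulVec_mulVec, wedge_mulVec, wedge_mulVec,
    wedge_mulVec, wedge_mulVec, mulVec_sub, mulVec_smul, mulVec_smul]
  have h1 := skew_bil hB hZ a x
  have h2 := skew_bil hB hZ b x
  rw [h1, h2]
  module

theorem skew_wedge (hB : Bᵀ = B) (a b : Fin N → F) : Skew B (wedge B a b) := by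
  unfold Skew wedge
  rw [Matrix.mul_sub, transpose_sub, Matrix.mul_vecMulVec, Matrix.mul_vecMulVec, transpose_vecMulVec,
    transpose_vecMulVec]
  have h : ∀ c : Fin N → F, c ᵥ* B = B *ᵥ c := by
    intro c
    rw [← mulVec_transpose, hB]
  rw [h, h]
  abel

theorem sum_wedge (hB : Bᵀ = B) (hdet : B.det ≠ 0) {X : Matrix (Fin N) (Fin N) F} (hX : Skew B X) :
    ∑ i, wedge B (B⁻¹ *ᵥ Pi.single i 1) (X *ᵥ Pi.single i 1) = (2 : F) • X := by
  have hunit : IsUnit B.det := isUnit_iff_ne_zero.2 hdet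
  have hinv : B * B⁻¹ = 1 := Matrix.mul_nonsing_inv _ hunit
  have hinv' : B⁻¹ * B = 1 := Matrix.nonsing_inv_mul _ hunit
  apply ext_mulVec
  intro x
  rw [Matrix.sum_mulVec]
  have key : ∀ i, wedge B (B⁻¹ *ᵥ Pi.single i 1) (X *ᵥ Pi.single i 1) *ᵥ x =
      x i • (X *ᵥ Pi.single i 1) + (Pi.single i (1 : F) ⬝ᵥ (B *ᵥ (X *ᵥ x))) • (B⁻¹ *ᵥ Pi.single i 1) := by
    intro i
    rw [wedge_mulVec]
    have h1 : bil B (B⁻¹ *ᵥ Pi.single i 1) x = x i := by
      rw [bil_symm hB]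
      unfold bil
      rw [mulVec_mulVec, hinv, one_mulVec]
      simp
    have h2 : bil B (X *ᵥ Pi.single i 1) x = -(Pi.single i (1 : F) ⬝ᵥ (B *ᵥ (X *ᵥ x))) := by
      rw [skew_bil hB hX]
      rfl
    rw [h1, h2, neg_smul, sub_neg_eq_add]
  rw [Finset.sum_congr rfl fun i _ => key i, Finset.sum_add_distrib]
  have h3 : ∑ i, x i • (X *ᵥ Pi.single i (1 : F)) = X *ᵥ x := by
    rw [← Finset.sum_congr rfl fun i _ => mulVec_smul X (x i) (Pi.single i (1 : F)), ← Matrix.mulVec_sum]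
    congr 1
    conv_rhs => rw [← Finset.univ_sum_single x]
    refine Finset.sum_congr rfl fun i _ => ?_
    rw [← Pi.single_smul, smul_eq_mul, mul_one]
  have h4 : ∑ i, (Pi.single i (1 : F) ⬝ᵥ (B *ᵥ (X *ᵥ x))) • (B⁻¹ *ᵥ Pi.single i (1 : F)) = X *ᵥ x := by
    rw [← Finset.sum_congr rfl fun i _ => mulVec_smul B⁻¹ (Pi.single i (1 : F) ⬝ᵥ (B *ᵥ (X *ᵥ x)))
      (Pi.single i (1 : F)), ← Matrix.mulVec_sum]
    have h5 : ∑ i, (Pi.single i (1 : F) ⬝ᵥ (B *ᵥ (X *ᵥ x))) • (Pi.single i (1 : F) : Fin N → F) =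
        B *ᵥ (X *ᵥ x) := by
      conv_rhs => rw [← Finset.univ_sum_single (B *ᵥ (X *ᵥ x))]
      refine Finset.sum_congr rfl fun i _ => ?_
      rw [← Pi.single_smul, smul_eq_mul, mul_one]
      simp
    rw [h5, mulVec_mulVec, hinv', one_mulVec]
  rw [h3, h4, two_smul, add_mulVec]

end

theorem so_main : S_SO := by
  intro F _ _ N B v 𝔤 hB hdet hskew hbr hsplit hv hirr X hX
  set c₀ := bil B v v with hc₀
  -- `M = 𝔤 v`
  let ev : Matrix (Fin N) (Fin N) F →ₗ[F] (Fin N → F) :=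
    { toFun := fun Z => Z *ᵥ v
      map_add' := fun a b => add_mulVec a b v
      map_smul' := fun a b => by rw [smul_mulVec]; rfl }
  set M : Submodule F (Fin N → F) := 𝔤.map ev with hM
  have hMmem : ∀ u, u ∈ M ↔ ∃ Z ∈ 𝔤, Z *ᵥ v = u := fun u => Submodule.mem_map
  have hMv : ∀ u ∈ M, bil B v u = 0 := by
    intro u hu
    obtain ⟨Z, hZ, rfl⟩ := (hMmem u).1 hu
    rw [bil_symm hB]
    exact skew_self hB (hskew Z hZ) v
  have hMv' : ∀ u ∈ M, bil B u v = 0 := fun u hu => by rw [bil_symm hB]; exact hMv u hu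
  have hw : ∀ u ∈ M, wedge B v u ∈ 𝔤 := by
    intro u hu
    obtain ⟨Z, hZ, rfl⟩ := (hMmem u).1 hu
    exact hsplit Z hZ
  -- `wedge u w ∈ 𝔤`
  have hww : ∀ u ∈ M, ∀ w ∈ M, wedge B u w ∈ 𝔤 := by
    intro u hu w hw'
    have h1 := hbr _ (hw u hu) _ (hw w hw')
    rw [bracket_wedge hB (skew_wedge hB v u), wedge_mulVec, wedge_mulVec, hMv' u hu, hMv w hw',
      zero_smul, zero_smul, sub_zero, zero_sub, ← hc₀] at h1
    have h2 : wedge B v (-(bil B u w • v)) = 0 := by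
      rw [← neg_smul, wedge_smul_right, wedge_self, smul_zero]
    rw [h2, add_zero, wedge_smul_left] at h1
    have h3 := 𝔤.smul_mem c₀⁻¹ h1
    rwa [smul_smul, inv_mul_cancel₀ hv, one_smul] at h3
  -- `Y w ∈ F v + M`
  have hYw : ∀ Y ∈ 𝔤, ∀ w ∈ M, ∃ a : F, ∃ u ∈ M, Y *ᵥ w = a • v + u := by
    intro Y hY w hw'
    have h1 := hbr Y hY _ (hw w hw')
    rw [bracket_wedge hB (hskew Y hY)] at h1
    have hYv : Y *ᵥ v ∈ M := (hMmem _).2 ⟨Y, hY, rfl⟩
    have h2 := 𝔤.sub_mem h1 (hww _ hYv w hw')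
    rw [add_sub_cancel_left] at h2
    have h3 : wedge B v (Y *ᵥ w) *ᵥ v ∈ M := (hMmem _).2 ⟨_, h2, rfl⟩
    rw [wedge_mulVec, ← hc₀] at h3
    refine ⟨c₀⁻¹ * bil B (Y *ᵥ w) v, c₀⁻¹ • (c₀ • (Y *ᵥ w) - bil B (Y *ᵥ w) v • v),
      M.smul_mem _ h3, ?_⟩
    rw [smul_sub, smul_smul, smul_smul, inv_mul_cancel₀ hv, one_smul, add_sub_cancel]
  -- the stable subspace
  set V₁ : Submodule F (Fin N → F) := Submodule.span F {v} ⊔ M with hV₁
  have hstab : ∀ Z ∈ 𝔤, ∀ w ∈ V₁, Z *ᵥ w ∈ V₁ := by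
    intro Z hZ w hw'
    rw [hV₁, Submodule.mem_sup] at hw'
    obtain ⟨y, hy, z, hz, rfl⟩ := hw'
    obtain ⟨a, rfl⟩ := Submodule.mem_span_singleton.1 hy
    obtain ⟨b, u, hu, hbu⟩ := hYw Z hZ z hz
    rw [mulVec_add, mulVec_smul, hbu]
    refine V₁.add_mem (V₁.smul_mem _ ?_) (V₁.add_mem (V₁.smul_mem _ ?_) ?_)
    · exact Submodule.mem_sup_right ((hMmem _).2 ⟨Z, hZ, rfl⟩)
    · exact Submodule.mem_sup_left (Submodule.mem_span_singleton_self v)
    · exact Submodule.mem_sup_right hu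
  have htop : V₁ = ⊤ := by
    rcases hirr V₁ hstab with h | h
    · exfalso
      have h1 : v ∈ V₁ := Submodule.mem_sup_left (Submodule.mem_span_singleton_self v)
      rw [h, Submodule.mem_bot] at h1
      apply hv
      rw [hc₀, h1, bil_zero_left]
    · exact h
  have hall : ∀ a b : Fin N → F, wedge B a b ∈ 𝔤 := by
    intro a b
    have ha : a ∈ V₁ := htop ▸ Submodule.mem_top
    have hb : b ∈ V₁ := htop ▸ Submodule.mem_top
    rw [hV₁, Submodule.mem_sup] at ha hb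
    obtain ⟨a1, ha1, a2, ha2, rfl⟩ := ha
    obtain ⟨b1, hb1, b2, hb2, rfl⟩ := hb
    obtain ⟨s, rfl⟩ := Submodule.mem_span_singleton.1 ha1
    obtain ⟨t, rfl⟩ := Submodule.mem_span_singleton.1 hb1
    rw [wedge_add_left, wedge_add_right, wedge_add_right, wedge_smul_left, wedge_smul_left,
      wedge_smul_right, wedge_smul_right, wedge_self, smul_zero, smul_zero, zero_add]
    refine 𝔤.add_mem (𝔤.smul_mem _ (hw _ hb2)) (𝔤.add_mem (𝔤.smul_mem _ ?_) (hww _ ha2 _ hb2))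
    rw [wedge_antisymm]
    exact 𝔤.neg_mem (hw _ ha2)
  have h2 : (2 : F) • X ∈ 𝔤 := by
    rw [← sum_wedge hB hdet hX]
    exact 𝔤.sum_mem fun i _ => hall _ _
  have h3 := 𝔤.smul_mem (2 : F)⁻¹ h2
  rwa [smul_smul, inv_mul_cancel₀ two_ne_zero, one_smul] at h3

end Pool.Agent.Y142.ZI
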