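import Pool.Agent.Y142.ZI.Stm

set_option autoImplicit false

/-! Project Y142-ZI: elementary lemmas on the rescaled polynomial `resc ℓ k Q`. -/

open Matrix Polynomial Filter Topology NumberField IsDedekindDomain
open Pool.Agent.Y142.ZO

namespace Pool.Agent.Y142.ZI

variable {ℓ : ℕ} [hℓ : Fact ℓ.Prime]

theorem ell_pow_ne (k : ℕ) : ((ℓ : ℚ_[ℓ]) ^ k) ≠ 0 :=
  pow_ne_zero _ (by exact_mod_cast hℓ.out.ne_zero)

theorem lin_natDegree (k : ℕ) : (1 + C ((ℓ : ℚ_[ℓ]) ^ k) * X : ℚ_[ℓ][X]).natDegree = 1 := by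
  have h : (1 + C ((ℓ : ℚ_[ℓ]) ^ k) * X : ℚ_[ℓ][X]) = C ((ℓ : ℚ_[ℓ]) ^ k) * X + C 1 := by
    rw [C_1]; ring
  rw [h, natDegree_linear (ell_pow_ne k)]

theorem lin_leadingCoeff (k : ℕ) :
    (1 + C ((ℓ : ℚ_[ℓ]) ^ k) * X : ℚ_[ℓ][X]).leadingCoeff = (ℓ : ℚ_[ℓ]) ^ k := by
  have h : (1 + C ((ℓ : ℚ_[ℓ]) ^ k) * X : ℚ_[ℓ][X]) = C ((ℓ : ℚ_[ℓ]) ^ k) * X + C 1 := by
    rw [C_1]; ring
  rw [h, leadingCoeff_linear (ell_pow_ne k)]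

theorem resc_natDegree (k : ℕ) (Q : ℚ_[ℓ][X]) : (resc ℓ k Q).natDegree = Q.natDegree := by
  unfold resc
  rw [natDegree_C_mul (pow_ne_zero _ (inv_ne_zero (ell_pow_ne k))), natDegree_comp, lin_natDegree,
    mul_one]

theorem resc_monic (k : ℕ) {Q : ℚ_[ℓ][X]} (hQ : Q.Monic) : (resc ℓ k Q).Monic := by
  unfold resc Monic
  rw [leadingCoeff_mul, leadingCoeff_C, leadingCoeff_comp (by rw [lin_natDegree]; exact one_ne_zero),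
    lin_leadingCoeff, hQ.leadingCoeff, one_mul, ← mul_pow, inv_mul_cancel₀ (ell_pow_ne k), one_pow]

theorem resc_mul (k : ℕ) {Q R : ℚ_[ℓ][X]} (hQ : Q.Monic) (hR : R.Monic) :
    resc ℓ k (Q * R) = resc ℓ k Q * resc ℓ k R := by
  unfold resc
  rw [hQ.natDegree_mul hR, pow_add, C_mul, mul_comp]
  ring

theorem resc_X_sub_one (k : ℕ) : resc ℓ k (X - 1 : ℚ_[ℓ][X]) = X := by
  have h1 : (X - 1 : ℚ_[ℓ][X]).natDegree = 1 := by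
    have := natDegree_X_sub_C (1 : ℚ_[ℓ])
    rwa [C_1] at this
  unfold resc
  rw [h1, pow_one, sub_comp, X_comp, one_comp, add_sub_cancel_left, ← mul_assoc, ← C_mul,
    inv_mul_cancel₀ (ell_pow_ne k), C_1, one_mul]

/-- `x` is a root of `Q` if and only if `(x - 1) / ℓ ^ k` is a root of `resc ℓ k Q` -/
theorem aeval_resc (k : ℕ) (Q : ℚ_[ℓ][X]) (x : AlgebraicClosure ℚ_[ℓ]) :
    aeval ((x - 1) / algebraMap ℚ_[ℓ] (AlgebraicClosure ℚ_[ℓ]) ((ℓ : ℚ_[ℓ]) ^ k)) (resc ℓ k Q) = 0 ↔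
      aeval x Q = 0 := by
  have h0 : algebraMap ℚ_[ℓ] (AlgebraicClosure ℚ_[ℓ]) ((ℓ : ℚ_[ℓ]) ^ k) ≠ 0 :=
    (_root_.map_ne_zero _).2 (ell_pow_ne k)
  unfold resc
  rw [map_mul, aeval_C, aeval_comp, map_add, map_one, map_mul, aeval_C, aeval_X, mul_div_cancel₀ _ h0,
    add_sub_cancel, mul_eq_zero, or_iff_right]
  exact (_root_.map_ne_zero _).2 (pow_ne_zero _ (inv_ne_zero (ell_pow_ne k)))

/-- `r` is a root of `resc ℓ k Q` if and only if `1 + ℓ ^ k r` is a root of `Q` -/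
theorem aeval_resc' (k : ℕ) (Q : ℚ_[ℓ][X]) (r : AlgebraicClosure ℚ_[ℓ]) :
    aeval r (resc ℓ k Q) = 0 ↔
      aeval (1 + algebraMap ℚ_[ℓ] (AlgebraicClosure ℚ_[ℓ]) ((ℓ : ℚ_[ℓ]) ^ k) * r) Q = 0 := by
  unfold resc
  rw [map_mul, aeval_C, aeval_comp, map_add, map_one, map_mul, aeval_C, aeval_X, mul_eq_zero,
    or_iff_right]
  exact (_root_.map_ne_zero _).2 (pow_ne_zero _ (inv_ne_zero (ell_pow_ne k)))

theorem eval_zero_resc (k : ℕ) (Q : ℚ_[ℓ][X]) :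
    (resc ℓ k Q).eval 0 = ((((ℓ : ℚ_[ℓ]) ^ k)⁻¹) ^ Q.natDegree) * Q.eval 1 := by
  unfold resc
  rw [eval_mul, eval_C, eval_comp]
  simp

theorem separable_of_resc (k : ℕ) {Q : ℚ_[ℓ][X]} (h : (resc ℓ k Q).Separable) : Q.Separable := by
  have h0 := ell_pow_ne (ℓ := ℓ) k
  have h1 : (Q.comp (1 + C ((ℓ : ℚ_[ℓ]) ^ k) * X)).Separable := by
    unfold resc at h
    exact h.of_dvd ⟨_, mul_comm _ _⟩
  obtain ⟨a, b, hab⟩ := h1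
  set u : ℚ_[ℓ][X] := C (((ℓ : ℚ_[ℓ]) ^ k)⁻¹) * (X - 1) with hu
  have hcomp : (1 + C ((ℓ : ℚ_[ℓ]) ^ k) * X : ℚ_[ℓ][X]).comp u = X := by
    rw [add_comp, one_comp, mul_comp, C_comp, X_comp, hu, ← mul_assoc, ← C_mul, mul_inv_cancel₀ h0,
      C_1, one_mul, add_sub_cancel]
  refine ⟨a.comp u, b.comp u * C ((ℓ : ℚ_[ℓ]) ^ k), ?_⟩
  have h2 := congrArg (fun p : ℚ_[ℓ][X] => p.comp u) hab
  simp only [add_comp, mul_comp, one_comp, derivative_comp, comp_assoc, hcomp, comp_X] at h2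
  have h3 : (derivative (1 + C ((ℓ : ℚ_[ℓ]) ^ k) * X : ℚ_[ℓ][X])).comp u = C ((ℓ : ℚ_[ℓ]) ^ k) := by
    rw [derivative_add, derivative_one, zero_add, derivative_C_mul, derivative_X, mul_one, C_comp]
  rw [h3] at h2
  rw [← h2]
  ring

end Pool.Agent.Y142.ZI
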