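import Mathlib
import Pool.Agent.Y142.ZO.Stm

set_option autoImplicit false

/-!
Project Y142-ZI (owner helper142): a zero-one law in `ℓ` for open image in the orthogonal group
(sequel of project Y142-ZO). Statements of the self-contained sub-tasks.

`AlgebraicClosure ℚ_[ℓ]` carries the spectral norm (`PadicAlgCl.normedField`, file
`Mathlib/NumberTheory/Padics/Complex.lean`).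
-/

open Matrix Polynomial Filter Topology NumberField IsDedekindDomain
open Pool.Agent.Y142.ZO

namespace Pool.Agent.Y142.ZI

/-! ### representations -/

/-- no proper nonzero subspace is stable under an open subgroup -/
def StronglyIrreducible (ℓ : ℕ) [Fact ℓ.Prime] {N : ℕ} {G : Type} [Group G] [TopologicalSpace G]
    (ρ : G →* Matrix (Fin N) (Fin N) ℚ_[ℓ]) : Prop :=
  ∀ (U : Subgroup G) (W : Submodule ℚ_[ℓ] (Fin N → ℚ_[ℓ])), IsOpen (U : Set G) →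
    (∀ σ ∈ U, ∀ w ∈ W, ρ σ *ᵥ w ∈ W) → W = ⊥ ∨ W = ⊤

/-- the Lie algebra of the image is the full orthogonal Lie algebra -/
def FullLie (ℓ : ℕ) [Fact ℓ.Prime] {N : ℕ} {G : Type} [Group G]
    (ρ : G →* Matrix (Fin N) (Fin N) ℚ_[ℓ]) (B : Matrix (Fin N) (Fin N) ℚ_[ℓ]) : Prop :=
  ∀ X, Skew B X → IsTangent ℓ ρ X

/-- the image contains a neighbourhood of `1` in the orthogonal group of `B` -/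
def OpenImage (ℓ : ℕ) [Fact ℓ.Prime] {N : ℕ} {G : Type} [Group G]
    (ρ : G →* Matrix (Fin N) (Fin N) ℚ_[ℓ]) (B : Matrix (Fin N) (Fin N) ℚ_[ℓ]) : Prop :=
  ∃ ε : ℝ, 0 < ε ∧ ∀ g : Matrix (Fin N) (Fin N) ℚ_[ℓ], Isom B g →
    (∀ i j, ‖(g - 1) i j‖ < ε) → ∃ σ, ρ σ = g

/-- task OPEN -/
def S_OPEN : Prop := ∀ (ℓ : ℕ) [Fact ℓ.Prime] (N : ℕ) (G : Type) [Group G] [TopologicalSpace G]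
  [IsTopologicalGroup G] [CompactSpace G] (ρ : G →* Matrix (Fin N) (Fin N) ℚ_[ℓ]), Continuous ρ →
  ∀ B : Matrix (Fin N) (Fin N) ℚ_[ℓ], Bᵀ = B → B.det ≠ 0 → (∀ g, Isom B (ρ g)) →
    FullLie ℓ ρ B → OpenImage ℓ ρ B

/-- task BADRED -/
def S_BADRED : Prop := ∀ (ℓ : ℕ) [Fact ℓ.Prime] (N : ℕ) (G : Type) [Group G]
  [TopologicalSpace G] [IsTopologicalGroup G] [CompactSpace G]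
  (ρ : G →* Matrix (Fin N) (Fin N) ℚ_[ℓ]), Continuous ρ → ∀ (B : Matrix (Fin N) (Fin N) ℚ_[ℓ]),
  Bᵀ = B → B.det ≠ 0 → (∀ g, Isom B (ρ g)) →
  ∀ (U : Subgroup G) (W : Submodule ℚ_[ℓ] (Fin N → ℚ_[ℓ])), IsOpen (U : Set G) →
    (∀ σ ∈ U, ∀ w ∈ W, ρ σ *ᵥ w ∈ W) → W ≠ ⊥ → W ≠ ⊤ →
  ∀ (σ : G) (Q : ℚ_[ℓ][X]), (ρ σ).charpoly = (X - 1) * Q → Irreducible Q → Q.eval 1 ≠ 0 →
    (∀ k : ℕ, 0 < k → ∀ x y : AlgebraicClosure ℚ_[ℓ], aeval x (ρ σ).charpoly = 0 →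
      aeval y (ρ σ).charpoly = 0 → x ^ k = y ^ k → x = y) →
    TateSubquotient ℓ ρ

/-! ### orthogonal Lie algebras over `ℚ_ℓ` -/

/-- task WITT: Witt decomposition over `ℚ_ℓ`, `ℓ` odd, in odd dimension -/
def S_WITT : Prop := ∀ (ℓ : ℕ) [Fact ℓ.Prime], ℓ ≠ 2 → ∀ (m : ℕ)
  (B : Matrix (Fin (2 * m + 3)) (Fin (2 * m + 3)) ℚ_[ℓ]), Bᵀ = B → B.det ≠ 0 →
  ∃ (C : Matrix (Fin (2 * m + 3)) ((Fin m ⊕ Fin m) ⊕ Fin 3) ℚ_[ℓ])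
    (D : Matrix ((Fin m ⊕ Fin m) ⊕ Fin 3) (Fin (2 * m + 3)) ℚ_[ℓ]) (d : Fin 3 → ℚ_[ℓ]),
    C * D = 1 ∧ D * C = 1 ∧ (∀ i, d i ≠ 0) ∧
    Cᵀ * B * C = fromBlocks (fromBlocks 0 1 1 0) 0 0 (diagonal d)

/-- task TERN: a ternary form has an orthogonal basis with `d₀ d₁` of odd valuation -/
def S_TERN : Prop := ∀ (ℓ : ℕ) [Fact ℓ.Prime], ℓ ≠ 2 → ∀ d : Fin 3 → ℚ_[ℓ], (∀ i, d i ≠ 0) →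
  ∃ (C D : Matrix (Fin 3) (Fin 3) ℚ_[ℓ]) (d' : Fin 3 → ℚ_[ℓ]), C * D = 1 ∧ D * C = 1 ∧
    (∀ i, d' i ≠ 0) ∧ Cᵀ * diagonal d * C = diagonal d' ∧ Odd (Padic.valuation (d' 0 * d' 1))

/-- task WT: both together -/
def S_WT : Prop := ∀ (ℓ : ℕ) [Fact ℓ.Prime], ℓ ≠ 2 → ∀ (m : ℕ)
  (B : Matrix (Fin (2 * m + 3)) (Fin (2 * m + 3)) ℚ_[ℓ]), Bᵀ = B → B.det ≠ 0 →
  ∃ (C : Matrix (Fin (2 * m + 3)) ((Fin m ⊕ Fin m) ⊕ Fin 3) ℚ_[ℓ])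
    (D : Matrix ((Fin m ⊕ Fin m) ⊕ Fin 3) (Fin (2 * m + 3)) ℚ_[ℓ]) (d : Fin 3 → ℚ_[ℓ]),
    C * D = 1 ∧ D * C = 1 ∧ (∀ i, d i ≠ 0) ∧ Odd (Padic.valuation (d 0 * d 1)) ∧
    Cᵀ * B * C = fromBlocks (fromBlocks 0 1 1 0) 0 0 (diagonal d)

/-- task FORM1 -/
def S_FORM1 : Prop := ∀ (ℓ : ℕ) [Fact ℓ.Prime], ℓ ≠ 2 → ∀ (m : ℕ)
  (B : Matrix (Fin (2 * m + 3)) (Fin (2 * m + 3)) ℚ_[ℓ]), Bᵀ = B → B.det ≠ 0 →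
  ∀ A : Matrix (Fin m) (Fin m) ℚ_[ℓ], ∃ (T : Matrix (Fin (2 * m + 3)) (Fin (2 * m + 3)) ℚ_[ℓ])
    (c : ℚ_[ℓ]), Skew B T ∧ ‖c‖ = (ℓ : ℝ)⁻¹ ∧
      T.charpoly = X * ((X ^ 2 - C c) * A.charpoly * (-A).charpoly)

/-- task FORM2 -/
def S_FORM2 : Prop := ∀ (ℓ : ℕ) [Fact ℓ.Prime], ℓ ≠ 2 → ∀ (m : ℕ)
  (B : Matrix (Fin (2 * m + 3)) (Fin (2 * m + 3)) ℚ_[ℓ]), Bᵀ = B → B.det ≠ 0 →
  ∃ (T : Matrix (Fin (2 * m + 3)) (Fin (2 * m + 3)) ℚ_[ℓ]) (c : ℚ_[ℓ]),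
    Skew B T ∧ ‖c‖ = (ℓ : ℝ)⁻¹ ∧ T.charpoly = X * (X ^ (2 * m + 2) - C c)

/-- task COMP: companion matrices -/
def S_COMP : Prop := ∀ (F : Type) [Field F] (m : ℕ) (p : F[X]), p.Monic → p.natDegree = m →
  ∃ A : Matrix (Fin m) (Fin m) F, A.charpoly = p

/-! ### roots over `ℚ_ℓ` -/

/-- all norms of nonzero elements of `F` are powers of `ℓ` (`F` is unramified over `ℚ_ℓ`) -/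
def Unr (ℓ : ℕ) [Fact ℓ.Prime] (F : IntermediateField ℚ_[ℓ] (AlgebraicClosure ℚ_[ℓ])) : Prop :=
  ∀ x ∈ F, x ≠ 0 → ∃ k : ℤ, ‖x‖ = (ℓ : ℝ) ^ k

/-- task CLU: polynomials close to `∏ ((X - b_j) ^ (m_j) - c_j)` -/
def S_CLU : Prop := ∀ (ℓ : ℕ) [Fact ℓ.Prime] (J : Type) [Fintype J] (b c : J → ℚ_[ℓ]) (m : J → ℕ),
  (∀ j, ‖b j‖ ≤ 1) → (∀ i j, i ≠ j → ‖b i - b j‖ = 1) → (∀ j, 0 < m j) →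
  (∀ j, ‖c j‖ = (ℓ : ℝ)⁻¹) →
  ∃ ε : ℝ, 0 < ε ∧ ∀ R : ℚ_[ℓ][X], R.Monic → R.natDegree = ∑ j, m j →
    (∀ k, ‖(R - ∏ j, ((X - C (b j)) ^ m j - C (c j))).coeff k‖ < ε) →
    R.Separable ∧
    (∀ r : AlgebraicClosure ℚ_[ℓ], aeval r R = 0 → ‖r‖ ≤ 1 ∧
      ∃ j, ‖r - algebraMap ℚ_[ℓ] (AlgebraicClosure ℚ_[ℓ]) (b j)‖ < 1) ∧
    (∀ j, {r : AlgebraicClosure ℚ_[ℓ] | aeval r R = 0 ∧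
      ‖r - algebraMap ℚ_[ℓ] (AlgebraicClosure ℚ_[ℓ]) (b j)‖ < 1}.ncard = m j) ∧
    ∀ F : IntermediateField ℚ_[ℓ] (AlgebraicClosure ℚ_[ℓ]), Unr ℓ F →
      ∀ (j : J) (r s : AlgebraicClosure ℚ_[ℓ]), aeval r R = 0 → aeval s R = 0 →
        ‖r - algebraMap ℚ_[ℓ] (AlgebraicClosure ℚ_[ℓ]) (b j)‖ < 1 →
        ‖s - algebraMap ℚ_[ℓ] (AlgebraicClosure ℚ_[ℓ]) (b j)‖ < 1 →
        ∃ τ : AlgebraicClosure ℚ_[ℓ] ≃ₐ[F] AlgebraicClosure ℚ_[ℓ], τ r = s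

/-- task CYC: a Galois element acting as a full cycle on the roots of a polynomial close to
`X ^ m - c` -/
def S_CYC : Prop := ∀ (ℓ : ℕ) [Fact ℓ.Prime] (m : ℕ) (c : ℚ_[ℓ]), 0 < m →
  ‖(m : ℚ_[ℓ])‖ = 1 → ‖c‖ = (ℓ : ℝ)⁻¹ →
  ∃ ε : ℝ, 0 < ε ∧ ∀ R : ℚ_[ℓ][X], R.Monic → R.natDegree = m →
    (∀ k, ‖(R - (X ^ m - C c)).coeff k‖ < ε) →
    ∀ F : IntermediateField ℚ_[ℓ] (AlgebraicClosure ℚ_[ℓ]), Unr ℓ F →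
      (∀ ζ : AlgebraicClosure ℚ_[ℓ], ζ ^ m = 1 → ζ ∈ F) →
      ∃ τ : AlgebraicClosure ℚ_[ℓ] ≃ₐ[F] AlgebraicClosure ℚ_[ℓ],
        ∀ r s : AlgebraicClosure ℚ_[ℓ], aeval r R = 0 → aeval s R = 0 → ∃ k : ℕ, (τ ^ k) r = s

/-- task UNR: the splitting field of a polynomial which is separable modulo `ℓ` is unramified -/
def S_UNR : Prop := ∀ (ℓ : ℕ) [Fact ℓ.Prime] (f : ℤ[X]), f.Monic →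
  (f.map (Int.castRingHom (ZMod ℓ))).Separable →
  Unr ℓ (IntermediateField.adjoin ℚ_[ℓ] {x : AlgebraicClosure ℚ_[ℓ] | aeval x f = 0})

/-- task NICE -/
def S_NICE : Prop := ∀ (ℓ : ℕ) [Fact ℓ.Prime], ℓ ≠ 2 → ∀ (x y : AlgebraicClosure ℚ_[ℓ]) (k : ℕ),
  0 < k → ‖x - 1‖ ≤ (ℓ : ℝ)⁻¹ → ‖y - 1‖ ≤ (ℓ : ℝ)⁻¹ → x ^ k = y ^ k → x = y

/-! ### global fields -/

/-- the algebraic closure of `ℚ` -/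
abbrev QQ : Type := AlgebraicClosure ℚ

/-- task INT -/
def S_INT : Prop := ∀ M : IntermediateField ℚ QQ, FiniteDimensional ℚ M →
  ∃ f : ℤ[X], f.Monic ∧ M ≤ IntermediateField.adjoin ℚ {x : QQ | aeval x f = 0} ∧
    ∃ b : ℕ, ∀ ℓ : ℕ, b < ℓ → ℓ.Prime → (f.map (Int.castRingHom (ZMod ℓ))).Separable

/-- task RES: restriction of automorphisms -/
def S_RES : Prop := ∀ (ℓ : ℕ) [Fact ℓ.Prime] (ι : QQ →+* AlgebraicClosure ℚ_[ℓ]) (f : ℤ[X])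
  (M : IntermediateField ℚ QQ), M ≤ IntermediateField.adjoin ℚ {x : QQ | aeval x f = 0} →
  ∀ τ : AlgebraicClosure ℚ_[ℓ] ≃ₐ[IntermediateField.adjoin ℚ_[ℓ]
      {x : AlgebraicClosure ℚ_[ℓ] | aeval x f = 0}] AlgebraicClosure ℚ_[ℓ],
    ∃ σ : GK ℚ, (∀ x ∈ M, σ x = x) ∧ ∀ x : QQ, τ (ι x) = ι (σ x)

/-- `σ` is a Frobenius element of the absolute Galois group of `ℚ` at the prime number `ℓ` -/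
def FrobAt (ℓ : ℕ) (σ : GK ℚ) : Prop :=
  ∃ 𝔔 : Ideal (𝓞 QQ), 𝔔.IsMaximal ∧ (ℓ : 𝓞 QQ) ∈ 𝔔 ∧ ∀ x : 𝓞 QQ, σ • x - x ^ ℓ ∈ 𝔔

/-- task IRR -/
def S_IRR : Prop := ∀ Q : ℚ[X], Q.Monic → Q.Separable → 0 < Q.natDegree →
  ∃ b : ℕ, ∀ ℓ : ℕ, b < ℓ → ∀ _ : Fact ℓ.Prime, ∀ σ : GK ℚ, FrobAt ℓ σ →
    (∀ x y : QQ, aeval x Q = 0 → aeval y Q = 0 → ∃ k : ℕ, (σ ^ k) x = y) →
    Irreducible (Q.map (algebraMap ℚ ℚ_[ℓ]))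

/-- task CHEB: Chebotarev's theorem for the absolute Galois group of `ℚ` -/
def S_CHEB : Prop := ∀ (U : Subgroup (GK ℚ)), U.Normal → IsOpen (U : Set (GK ℚ)) →
  ∀ C : Set (GK ℚ), (∀ g ∈ C, ∀ h, h * g * h⁻¹ ∈ C) → (∀ g ∈ C, ∀ u ∈ U, g * u ∈ C) →
  Tendsto (fun n : ℕ => (Nat.card {ℓ : ℕ // ℓ ≤ n ∧ ℓ.Prime ∧ ∃ σ ∈ C, FrobAt ℓ σ} : ℝ) /
    (Nat.primeCounting n : ℝ)) atTop
    (𝓝 ((((QuotientGroup.mk : GK ℚ → GK ℚ ⧸ U) '' C).ncard : ℝ) / (Nat.card (GK ℚ ⧸ U) : ℝ)))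

/-- a set of primes has natural density zero -/
def DensityZero (A : Set ℕ) : Prop :=
  Tendsto (fun n : ℕ => (Nat.card {ℓ : ℕ // ℓ ≤ n ∧ ℓ ∈ A} : ℝ) / (Nat.primeCounting n : ℝ))
    atTop (𝓝 0)

/-- task POS -/
def S_POS : Prop := ∀ (U : Subgroup (GK ℚ)), U.Normal → IsOpen (U : Set (GK ℚ)) →
  ∀ C : Set (GK ℚ), C.Nonempty → (∀ g ∈ C, ∀ h, h * g * h⁻¹ ∈ C) → (∀ g ∈ C, ∀ u ∈ U, g * u ∈ C) →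
  ∀ A : Set ℕ, DensityZero A → ∀ b : ℕ, ∃ ℓ : ℕ, b < ℓ ∧ ℓ.Prime ∧ ℓ ∉ A ∧ ∃ σ ∈ C, FrobAt ℓ σ

/-- task DENS2 -/
def S_DENS2 : Prop := ∀ (Bad : Set ℕ) (D : ℕ), (∀ ℓ ∈ Bad, ℓ.Prime) →
  (∀ M : IntermediateField ℚ QQ, FiniteDimensional ℚ M →
    ∃ (L : IntermediateField ℚ QQ) (C : Set (GK ℚ)), FiniteDimensional ℚ L ∧ Normal ℚ L ∧
      Module.finrank ℚ L ≤ D ∧ (∀ g ∈ C, ∀ h, h * g * h⁻¹ ∈ C) ∧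
      (∀ g ∈ C, ∀ u : GK ℚ, (∀ x ∈ L, u x = x) → g * u ∈ C) ∧
      (∀ g : GK ℚ, ∃ h : GK ℚ, (∀ x ∈ M, h x = x) ∧ g * h ∈ C) ∧
      ∃ b : ℕ, ∀ ℓ ∈ Bad, b < ℓ → ∀ σ, FrobAt ℓ σ → σ ∉ C) →
  DensityZero Bad

/-! ### approximation -/

/-- task MULTI: approximation of tangent vectors at several primes -/
def S_MULTI : Prop := ∀ (G : Type) [Group G] [TopologicalSpace G] [IsTopologicalGroup G]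
  [CompactSpace G] (N : ℕ) (I : Type) [Fintype I] (p : I → ℕ) [∀ i, Fact (p i).Prime],
  Function.Injective p →
  ∀ (ρ : ∀ i, G →* Matrix (Fin N) (Fin N) ℚ_[p i]), (∀ i, Continuous (ρ i)) →
  ∀ (T : ∀ i, Matrix (Fin N) (Fin N) ℚ_[p i]), (∀ i, IsTangent (p i) (ρ i) (T i)) →
  ∀ (δ : ℝ) (k₀ : ℕ), 0 < δ →
  ∃ O : Set G, IsOpen O ∧ O.Nonempty ∧ ∀ σ ∈ O, ∀ i, ∃ k : ℕ, k₀ ≤ k ∧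
    ∀ a b, ‖((((p i : ℚ_[p i]) ^ k)⁻¹ • (ρ i σ - 1)) - T i) a b‖ < δ

/-- the polynomial whose roots are `(x - 1) / ℓ ^ k`, for the roots `x` of `Q` -/
noncomputable def resc (ℓ : ℕ) [Fact ℓ.Prime] (k : ℕ) (Q : ℚ_[ℓ][X]) : ℚ_[ℓ][X] :=
  C ((((ℓ : ℚ_[ℓ]) ^ k)⁻¹) ^ Q.natDegree) * Q.comp (1 + C ((ℓ : ℚ_[ℓ]) ^ k) * X)

/-- task CHAR: the characteristic polynomial of an isometry near `1` -/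
def S_CHAR : Prop := ∀ (ℓ : ℕ) [Fact ℓ.Prime], ℓ ≠ 2 → ∀ (N : ℕ), Odd N →
  ∀ (B T : Matrix (Fin N) (Fin N) ℚ_[ℓ]) (R₀ : ℚ_[ℓ][X]), Bᵀ = B → B.det ≠ 0 →
  T.charpoly = X * R₀ → ∀ ε : ℝ, 0 < ε → ∃ (δ : ℝ) (k₀ : ℕ), 0 < δ ∧
  ∀ (k : ℕ) (g : Matrix (Fin N) (Fin N) ℚ_[ℓ]), k₀ ≤ k → Isom B g →
    (∀ a b, ‖((((ℓ : ℚ_[ℓ]) ^ k)⁻¹ • (g - 1)) - T) a b‖ < δ) →
    ∃ Q : ℚ_[ℓ][X], g.charpoly = (X - 1) * Q ∧ Q.Monic ∧ (resc ℓ k Q).Monic ∧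
      (resc ℓ k Q).natDegree = N - 1 ∧ (∀ j, ‖(resc ℓ k Q - R₀).coeff j‖ < ε) ∧
      ∀ x : AlgebraicClosure ℚ_[ℓ], aeval x Q = 0 → x ≠ 0 ∧ aeval x⁻¹ Q = 0

/-! ### permutations -/

/-- task GEN: a group of permutations commuting with a fixed point free involution -/
def S_GEN : Prop := ∀ (R : Type) [Fintype R] [DecidableEq R] (ι : Equiv.Perm R)
  (H : Subgroup (Equiv.Perm R)), (∀ x, ι x ≠ x) → (∀ x, ι (ι x) = x) →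
  (∀ h ∈ H, ∀ x, h (ι x) = ι (h x)) →
  -- a full cycle
  (∃ h ∈ H, ∀ x y, ∃ k : ℕ, (h ^ k) x = y) →
  -- one sign change
  (∃ h ∈ H, ∃ x, h x = ι x ∧ ∀ y, y ≠ x → y ≠ ι x → h y = y) →
  -- a transposition of two pairs, if there are at least three pairs
  (6 ≤ Fintype.card R → ∃ h ∈ H, ∃ x y, y ≠ x ∧ y ≠ ι x ∧ (h x = y ∨ h x = ι y) ∧
    (h y = x ∨ h y = ι x) ∧
    ∀ z, z ≠ x → z ≠ ι x → z ≠ y → z ≠ ι y → (h z = z ∨ h z = ι z)) →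
  -- transitivity on the other pairs
  (∃ z₀, ∀ x y, x ≠ z₀ → x ≠ ι z₀ → y ≠ z₀ → y ≠ ι z₀ → ∃ h ∈ H, (h z₀ = z₀ ∨ h z₀ = ι z₀) ∧
    (h x = y ∨ h x = ι y)) →
  ∀ w : Equiv.Perm R, (∀ x, w (ι x) = ι (w x)) → w ∈ H

/-! ### local types -/

/-- the roots of `Q` in the cluster `1 + ℓ ^ k (b + smaller)` -/
def Clus (ℓ : ℕ) [Fact ℓ.Prime] (k : ℕ) (Q : ℚ_[ℓ][X]) (b : ℚ_[ℓ]) :
    Set (AlgebraicClosure ℚ_[ℓ]) :=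
  {x | aeval x Q = 0 ∧
    ‖x - 1 - algebraMap ℚ_[ℓ] (AlgebraicClosure ℚ_[ℓ]) ((ℓ : ℚ_[ℓ]) ^ k * b)‖ < ((ℓ : ℝ) ^ k)⁻¹}

/-- task CLQ: clusters of roots of an inverse-invariant polynomial `Q` near `1` -/
def S_CLQ : Prop := ∀ (ℓ : ℕ) [Fact ℓ.Prime], ℓ ≠ 2 → ∀ (J : Type) [Fintype J] (b c : J → ℚ_[ℓ])
  (m : J → ℕ), (∀ j, ‖b j‖ ≤ 1) → (∀ i j, i ≠ j → ‖b i - b j‖ = 1) → (∀ j, 0 < m j) →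
  (∀ j, ‖c j‖ = (ℓ : ℝ)⁻¹) →
  ∃ ε : ℝ, 0 < ε ∧ ∀ (k : ℕ) (Q : ℚ_[ℓ][X]), 0 < k → Q.Monic → Q.natDegree = ∑ j, m j →
    (∀ x : AlgebraicClosure ℚ_[ℓ], aeval x Q = 0 → x ≠ 0 ∧ aeval x⁻¹ Q = 0) →
    (∀ i, ‖(resc ℓ k Q - ∏ j, ((X - C (b j)) ^ m j - C (c j))).coeff i‖ < ε) →
    Q.Separable ∧ ((∀ j, ‖b j‖ < 1 → b j = 0) → Q.eval 1 ≠ 0) ∧
    (∀ x : AlgebraicClosure ℚ_[ℓ], aeval x Q = 0 → ∃ j, x ∈ Clus ℓ k Q (b j)) ∧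
    (∀ i j, i ≠ j → Disjoint (Clus ℓ k Q (b i)) (Clus ℓ k Q (b j))) ∧
    (∀ j, (Clus ℓ k Q (b j)).ncard = m j) ∧
    (∀ i j, b i = -b j → ∀ x ∈ Clus ℓ k Q (b j), x⁻¹ ∈ Clus ℓ k Q (b i)) ∧
    (∀ (τ : AlgebraicClosure ℚ_[ℓ] ≃ₐ[ℚ_[ℓ]] AlgebraicClosure ℚ_[ℓ]) (j : J),
      ∀ x ∈ Clus ℓ k Q (b j), τ x ∈ Clus ℓ k Q (b j)) ∧
    ∀ F : IntermediateField ℚ_[ℓ] (AlgebraicClosure ℚ_[ℓ]), Unr ℓ F →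
      ∀ j, ∀ x ∈ Clus ℓ k Q (b j), ∀ y ∈ Clus ℓ k Q (b j),
        ∃ τ : AlgebraicClosure ℚ_[ℓ] ≃ₐ[F] AlgebraicClosure ℚ_[ℓ], τ x = y

/-- task TYPC: local type full cycle -/
def S_TYPC : Prop := ∀ (ℓ : ℕ) [Fact ℓ.Prime], ℓ ≠ 2 → ∀ (n : ℕ) (c : ℚ_[ℓ]), 0 < n →
  ‖((2 * n : ℕ) : ℚ_[ℓ])‖ = 1 → ‖c‖ = (ℓ : ℝ)⁻¹ → ∃ ε : ℝ, 0 < ε ∧
  ∀ (k : ℕ) (Q : ℚ_[ℓ][X]), 0 < k → Q.Monic → Q.natDegree = 2 * n →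
    (∀ x : AlgebraicClosure ℚ_[ℓ], aeval x Q = 0 → x ≠ 0 ∧ aeval x⁻¹ Q = 0) →
    (∀ j, ‖(resc ℓ k Q - (X ^ (2 * n) - C c)).coeff j‖ < ε) →
    Q.Separable ∧ Q.eval 1 ≠ 0 ∧ Q.eval (-1) ≠ 0 ∧
    (∀ (j : ℕ) (x y : AlgebraicClosure ℚ_[ℓ]), 0 < j → aeval x ((X - 1) * Q) = 0 →
      aeval y ((X - 1) * Q) = 0 → x ^ j = y ^ j → x = y) ∧
    ∀ F : IntermediateField ℚ_[ℓ] (AlgebraicClosure ℚ_[ℓ]), Unr ℓ F →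
      (∀ ζ : AlgebraicClosure ℚ_[ℓ], ζ ^ (2 * n) = 1 → ζ ∈ F) →
      ∃ τ : AlgebraicClosure ℚ_[ℓ] ≃ₐ[F] AlgebraicClosure ℚ_[ℓ],
        ∀ x y : AlgebraicClosure ℚ_[ℓ], aeval x Q = 0 → aeval y Q = 0 → ∃ i : ℕ, (τ ^ i) x = y

/-- task TYPS: local type sign change -/
def S_TYPS : Prop := ∀ (ℓ : ℕ) [Fact ℓ.Prime] (m : ℕ), 2 * m + 2 < ℓ →
  ∃ A : Matrix (Fin m) (Fin m) ℚ_[ℓ], ∀ c : ℚ_[ℓ], ‖c‖ = (ℓ : ℝ)⁻¹ → ∃ ε : ℝ, 0 < ε ∧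
  ∀ (k : ℕ) (Q : ℚ_[ℓ][X]), 0 < k → Q.Monic → Q.natDegree = 2 * m + 2 →
    (∀ x : AlgebraicClosure ℚ_[ℓ], aeval x Q = 0 → x ≠ 0 ∧ aeval x⁻¹ Q = 0) →
    (∀ j, ‖(resc ℓ k Q - (X ^ 2 - C c) * A.charpoly * (-A).charpoly).coeff j‖ < ε) →
    ∀ F : IntermediateField ℚ_[ℓ] (AlgebraicClosure ℚ_[ℓ]), Unr ℓ F →
    ∃ (τ : AlgebraicClosure ℚ_[ℓ] ≃ₐ[F] AlgebraicClosure ℚ_[ℓ]) (x : AlgebraicClosure ℚ_[ℓ]),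
      aeval x Q = 0 ∧ τ x = x⁻¹ ∧ ∀ y, aeval y Q = 0 → y ≠ x → y ≠ x⁻¹ → τ y = y

/-- task TYPT: local type transposition of two pairs -/
def S_TYPT : Prop := ∀ (ℓ : ℕ) [Fact ℓ.Prime] (m : ℕ), 2 * m + 2 < ℓ → 2 ≤ m →
  ∃ A : Matrix (Fin m) (Fin m) ℚ_[ℓ], ∀ c : ℚ_[ℓ], ‖c‖ = (ℓ : ℝ)⁻¹ → ∃ ε : ℝ, 0 < ε ∧
  ∀ (k : ℕ) (Q : ℚ_[ℓ][X]), 0 < k → Q.Monic → Q.natDegree = 2 * m + 2 →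
    (∀ x : AlgebraicClosure ℚ_[ℓ], aeval x Q = 0 → x ≠ 0 ∧ aeval x⁻¹ Q = 0) →
    (∀ j, ‖(resc ℓ k Q - (X ^ 2 - C c) * A.charpoly * (-A).charpoly).coeff j‖ < ε) →
    ∀ F : IntermediateField ℚ_[ℓ] (AlgebraicClosure ℚ_[ℓ]), Unr ℓ F →
    ∃ (τ : AlgebraicClosure ℚ_[ℓ] ≃ₐ[F] AlgebraicClosure ℚ_[ℓ]) (x y : AlgebraicClosure ℚ_[ℓ]),
      aeval x Q = 0 ∧ aeval y Q = 0 ∧ y ≠ x ∧ y ≠ x⁻¹ ∧ τ x = y ∧ τ y = x ∧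
      ∀ z, aeval z Q = 0 → z ≠ x → z ≠ x⁻¹ → z ≠ y → z ≠ y⁻¹ → (τ z = z ∨ τ z = z⁻¹)

/-- task TYPU: local type transitive outside one pair -/
def S_TYPU : Prop := ∀ (ℓ : ℕ) [Fact ℓ.Prime] (m : ℕ), 2 * m + 2 < ℓ → 0 < m →
  ∃ A : Matrix (Fin m) (Fin m) ℚ_[ℓ], ∀ c : ℚ_[ℓ], ‖c‖ = (ℓ : ℝ)⁻¹ → ∃ ε : ℝ, 0 < ε ∧
  ∀ (k : ℕ) (Q : ℚ_[ℓ][X]), 0 < k → Q.Monic → Q.natDegree = 2 * m + 2 →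
    (∀ x : AlgebraicClosure ℚ_[ℓ], aeval x Q = 0 → x ≠ 0 ∧ aeval x⁻¹ Q = 0) →
    (∀ j, ‖(resc ℓ k Q - (X ^ 2 - C c) * A.charpoly * (-A).charpoly).coeff j‖ < ε) →
    ∀ F : IntermediateField ℚ_[ℓ] (AlgebraicClosure ℚ_[ℓ]), Unr ℓ F →
    ∃ z₀ : AlgebraicClosure ℚ_[ℓ], aeval z₀ Q = 0 ∧
      ∀ x y, aeval x Q = 0 → aeval y Q = 0 → x ≠ z₀ → x ≠ z₀⁻¹ → y ≠ z₀ → y ≠ z₀⁻¹ →
      ∃ τ : AlgebraicClosure ℚ_[ℓ] ≃ₐ[F] AlgebraicClosure ℚ_[ℓ],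
        (τ z₀ = z₀ ∨ τ z₀ = z₀⁻¹) ∧ (τ x = y ∨ τ x = y⁻¹)

/-! ### the full orthogonal Lie algebra -/

/-- task SO: an irreducible Lie algebra of skew maps which contains the components `v ∧ Z v` of its
elements is the algebra of all skew maps -/
def S_SO : Prop := ∀ (F : Type) [Field F] [CharZero F] (N : ℕ) (B : Matrix (Fin N) (Fin N) F)
  (v : Fin N → F) (𝔤 : Submodule F (Matrix (Fin N) (Fin N) F)), Bᵀ = B → B.det ≠ 0 →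
  (∀ Z ∈ 𝔤, Skew B Z) → (∀ X ∈ 𝔤, ∀ Y ∈ 𝔤, X * Y - Y * X ∈ 𝔤) →
  (∀ Z ∈ 𝔤, wedge B v (Z *ᵥ v) ∈ 𝔤) → bil B v v ≠ 0 →
  (∀ W : Submodule F (Fin N → F), (∀ Z ∈ 𝔤, ∀ w ∈ W, Z *ᵥ w ∈ W) → W = ⊥ ∨ W = ⊤) →
  ∀ X, Skew B X → X ∈ 𝔤

end Pool.Agent.Y142.ZI
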