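import Pool.Agent.Y142.ZI.Surj

/-!
# Project ZI: the zero-one law for open image
-/

set_option autoImplicit false
set_option linter.style.haveILetI false

open Matrix Polynomial Filter Topology NumberField IsDedekindDomain
open Pool.Agent.Y142.ZO

namespace Pool.Agent.Y142.ZI

/-! ### density zero -/

theorem DensityZero.mono {A A' : Set ℕ} (h : DensityZero A') (hA : ∀ ℓ ∈ A, ℓ ∈ A') :
    DensityZero A := by
  refine squeeze_zero (fun n => by positivity) (fun n => ?_) h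
  apply div_le_div_of_nonneg_right _ (Nat.cast_nonneg _)
  have hfin : Finite {ℓ : ℕ // ℓ ≤ n ∧ ℓ ∈ A'} :=
    Finite.of_injective (fun x => (⟨x.1, Nat.lt_succ_of_le x.2.1⟩ : Fin (n + 1))) (fun x y h => by
      apply Subtype.ext
      exact congrArg (fun z : Fin (n + 1) => z.1) h)
  have h1 : Nat.card {ℓ : ℕ // ℓ ≤ n ∧ ℓ ∈ A} ≤ Nat.card {ℓ : ℕ // ℓ ≤ n ∧ ℓ ∈ A'} :=
    Nat.card_le_card_of_injective (fun x => ⟨x.1, x.2.1, hA _ x.2.2⟩) (fun x y h => by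
      apply Subtype.ext
      exact congrArg (fun z : {ℓ : ℕ // ℓ ≤ n ∧ ℓ ∈ A'} => z.1) h)
  exact_mod_cast h1

theorem DensityZero.union {A A' : Set ℕ} (h : DensityZero A) (h' : DensityZero A') :
    DensityZero (A ∪ A') := by
  have h2 := h.add h'
  rw [add_zero] at h2
  refine squeeze_zero (fun n => by positivity) (fun n => ?_) h2
  rw [← add_div]
  apply div_le_div_of_nonneg_right _ (Nat.cast_nonneg _)
  have hfin : ∀ C : Set ℕ, Finite {ℓ : ℕ // ℓ ≤ n ∧ ℓ ∈ C} := fun C =>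
    Finite.of_injective (fun x => (⟨x.1, Nat.lt_succ_of_le x.2.1⟩ : Fin (n + 1))) (fun x y h => by
      apply Subtype.ext
      exact congrArg (fun z : Fin (n + 1) => z.1) h)
  haveI := hfin A
  haveI := hfin A'
  have h1 : Nat.card {ℓ : ℕ // ℓ ≤ n ∧ ℓ ∈ A ∪ A'} ≤
      Nat.card ({ℓ : ℕ // ℓ ≤ n ∧ ℓ ∈ A} ⊕ {ℓ : ℕ // ℓ ≤ n ∧ ℓ ∈ A'}) := by
    classical
    refine Nat.card_le_card_of_injective (fun x => if hx : x.1 ∈ A then Sum.inl ⟨x.1, x.2.1, hx⟩ else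
      Sum.inr ⟨x.1, x.2.1, x.2.2.resolve_left hx⟩) ?_
    intro x y hxy
    apply Subtype.ext
    by_cases hx : x.1 ∈ A <;> by_cases hy : y.1 ∈ A
    · simp only [hx, hy, dif_pos, Sum.inl.injEq, Subtype.mk.injEq] at hxy
      exact hxy
    · simp [hx, hy] at hxy
    · simp [hx, hy] at hxy
    · simp only [hx, hy, dif_neg, not_false_eq_true, Sum.inr.injEq, Subtype.mk.injEq] at hxy
      exact hxy
  rw [Nat.card_sum] at h1
  exact_mod_cast h1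

theorem pull_root (ℓ : ℕ) [Fact ℓ.Prime] (ι : QQ →+* AlgebraicClosure ℚ_[ℓ]) {Q : ℚ[X]} {r : QQ}
    (hr : aeval (ι r) (Q.map (algebraMap ℚ ℚ_[ℓ])) = 0) : aeval r Q = 0 := by
  apply ι.injective
  rw [map_zero, ← hr, aeval_def, hom_eval₂, aeval_def, eval₂_map]
  congr 1
  exact Subsingleton.elim _ _

theorem norm_natCast_eq_one (p : ℕ) [hp : Fact p.Prime] {n : ℕ} (h : ¬ p ∣ n) : ‖(n : ℚ_[p])‖ = 1 := by
  exact Padic.norm_natCast_eq_one_iff.2 ((Nat.Prime.coprime_iff_not_dvd hp.out).2 h)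

section
variable {K : Type} [Field K] [NumberField K] {m : ℕ} {S : Set (HeightOneSpectrum (𝓞 K))}
  {P : HeightOneSpectrum (𝓞 K) → ℚ[X]}

/-- from `ConC` to a nice place -/
theorem nice_of_con {v : HeightOneSpectrum (𝓞 K)} {Q : ℚ[X]} (hvS : v ∉ S) (hPv : P v = (X - 1) * Q)
    (hmon : Q.Monic) (p : ℕ) [Fact p.Prime] (n : ℕ) (hC : ConC p n (Q.map (algebraMap ℚ ℚ_[p]))) :
    NicePlace S P v Q ∧ Q.eval (-1) ≠ 0 := by
  obtain ⟨hsep, h1, h2, hpow, -⟩ := hC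
  refine ⟨⟨hvS, hPv, hmon, (Polynomial.separable_map _).1 hsep, ?_, ?_⟩, ?_⟩
  · intro h
    apply h1
    have h3 := eval_map_rat (F := ℚ_[p]) Q 1
    rw [map_one, h, map_zero] at h3
    exact h3
  · intro j x y hj hx hy hxy
    obtain ⟨ι⟩ := emb p
    have h3 : ((X - 1) * Q : ℚ[X]).map (algebraMap ℚ ℚ_[p]) = (X - 1) * Q.map (algebraMap ℚ ℚ_[p]) := by
      rw [Polynomial.map_mul, Polynomial.map_sub, map_X, Polynomial.map_one]
    have hx' := push_root p ι hx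
    have hy' := push_root p ι hy
    rw [h3] at hx' hy'
    apply ι.injective
    refine hpow j _ _ hj hx' hy' ?_
    rw [← map_pow, hxy, map_pow]
  · intro h
    apply h2
    have h3 := eval_map_rat (F := ℚ_[p]) Q (-1)
    rw [map_neg, map_one, h, map_zero] at h3
    exact h3

/-- one nice place with a full cycle, and the bad set has density zero -/
theorem density_of_cyc (hLINE : S_LINE) (hTAN : S_TAN) (hEXP : S_EXP) (hSPEC : S_SPEC)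
    (hFROB : S_FROB) (hBADRED : S_BADRED) (hPOS : S_POS) (hIRR : S_IRR) (hOPEN : S_OPEN)
    (hMULTI : S_MULTI) (hCHAR : S_CHAR) (hGEN : S_GEN) (hRES : S_RES) (hUNR : S_UNR) (hINT : S_INT)
    (hDENS2 : S_DENS2) (hFORM1 : S_FORM1) (hFORM2 : S_FORM2) (hTYPC : S_TYPC) (hTYPS : S_TYPS)
    (hTYPT : S_TYPT) (hTYPU : S_TYPU) (hS : S.Finite)
    {v₀ : HeightOneSpectrum (𝓞 K)} {Q₀ : ℚ[X]} (hv₀ : GoodPlace S P v₀ Q₀)
    (h0 : ∀ x y z : ℂ, aeval x Q₀ = 0 → aeval y Q₀ = 0 → aeval z Q₀ = 0 → x * y ≠ z)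
    (ρ : ∀ (ℓ : ℕ) [Fact ℓ.Prime], GK K →* Matrix (Fin (2 * m + 3)) (Fin (2 * m + 3)) ℚ_[ℓ])
    (B : ∀ (ℓ : ℕ) [Fact ℓ.Prime], Matrix (Fin (2 * m + 3)) (Fin (2 * m + 3)) ℚ_[ℓ])
    (hsys : ∀ (ℓ : ℕ) [Fact ℓ.Prime], Orthogonal K (2 * m + 3) ℓ (ρ ℓ) (B ℓ) S P)
    (hT : DensityZero (TateSet ρ)) {v₁ : HeightOneSpectrum (𝓞 K)} {Q₁ : ℚ[X]}
    (hv₁ : NicePlace S P v₁ Q₁) (hdeg₁ : 0 < Q₁.natDegree) (hne : (Cyc Q₁).Nonempty) :
    DensityZero {ℓ | ∃ _ : Fact ℓ.Prime, ¬ OpenImage ℓ (ρ ℓ) (B ℓ)} := by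
  classical
  have hN : Odd (2 * m + 3) := ⟨m + 1, by ring⟩
  have hinf := inf_open hLINE hTAN hEXP hSPEC hBADRED hPOS hIRR hv₀ h0 ρ B hsys hT hv₁ hdeg₁ hne
  set Bad : Set ℕ := {ℓ | ∃ _ : Fact ℓ.Prime, ¬ FullLie ℓ (ρ ℓ) (B ℓ) ∧ ¬ TateSubquotient ℓ (ρ ℓ)}
    with hBad
  have hkey : DensityZero Bad := by
    refine hDENS2 Bad (2 * m + 2).factorial (fun ℓ hℓ => hℓ.1.out) fun M hM => ?_
    -- the field `M'`
    set Z : IntermediateField ℚ QQ := Lf (X ^ (2 * (m + 1)) - 1) with hZ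
    haveI : FiniteDimensional ℚ Z := Lf_finite _
    haveI := hM
    set M' : IntermediateField ℚ QQ := M ⊔ Z with hM'
    haveI : FiniteDimensional ℚ M' := IntermediateField.finiteDimensional_sup M Z
    obtain ⟨f, hf, hMf, b, hb⟩ := hINT M' inferInstance
    -- four primes
    set 𝒢 : Set ℕ := {ℓ | max b (2 * m + 3) < ℓ ∧ ∃ _ : Fact ℓ.Prime, FullLie ℓ (ρ ℓ) (B ℓ)} with h𝒢
    have h𝒢inf : 𝒢.Infinite := by
      apply Set.infinite_of_forall_exists_gt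
      intro a
      obtain ⟨ℓ, hℓ, hp, hfull⟩ := hinf (max a (max b (2 * m + 3)))
      rw [max_lt_iff] at hℓ
      exact ⟨ℓ, ⟨hℓ.2, hp, hfull⟩, hℓ.1⟩
    let e : ℕ ↪ 𝒢 := h𝒢inf.natEmbedding
    let p : Fin 4 → ℕ := fun i => (e i.1).1
    have hpinj : Function.Injective p := by
      intro i j hij
      exact Fin.ext (e.injective (Subtype.ext hij))
    have hpmem : ∀ i, p i ∈ 𝒢 := fun i => (e i.1).2
    haveI hpp : ∀ i, Fact (p i).Prime := fun i => (hpmem i).2.1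
    have hpfull : ∀ i, FullLie (p i) (ρ (p i)) (B (p i)) := by
      intro i
      obtain ⟨-, h, h'⟩ := hpmem i
      exact h'
    have hplt : ∀ i, b < p i ∧ 2 * m + 3 < p i := fun i => max_lt_iff.1 (hpmem i).1
    have hBi : ∀ i, (B (p i))ᵀ = B (p i) := fun i => (hsys (p i)).2.1
    have hBd : ∀ i, (B (p i)).det ≠ 0 := fun i => (hsys (p i)).2.2.1
    let Con : ∀ i, ℚ_[p i][X] → Prop := fun i Q =>
      (i = 0 → ConC (p i) (m + 1) Q) ∧ (i = 1 → ConS (p i) Q) ∧ (i = 2 → 2 ≤ m → ConT (p i) Q) ∧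
        (i = 3 → 0 < m → ConU (p i) Q)
    have hlt : ∀ i, LocalType (p i) (2 * m + 3) (B (p i)) (Con i) := by
      intro i
      have hm' : 2 * m + 2 < p i := by have := (hplt i).2; omega
      by_cases hi0 : i = 0
      · refine (lt_c hFORM2 hTYPC (ne_two_of_lt hm') (norm_natCast_eq_one _ ?_) (hBi i) (hBd i)).mono
          fun Q hQ => ⟨fun _ => hQ, fun h => ?_, fun h => ?_, fun h => ?_⟩
        · intro h
          have := Nat.le_of_dvd (by omega) h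
          omega
        · exact absurd (h.symm.trans hi0) (by decide)
        · exact absurd (h.symm.trans hi0) (by decide)
        · exact absurd (h.symm.trans hi0) (by decide)
      by_cases hi2 : i = 2 ∧ 2 ≤ m
      · refine (lt_t hFORM1 hTYPT hm' hi2.2 (hBi i) (hBd i)).mono
          fun Q hQ => ⟨fun h => ?_, fun h => ?_, fun _ _ => hQ, fun h => ?_⟩
        · exact absurd (h.symm.trans hi2.1) (by decide)
        · exact absurd (h.symm.trans hi2.1) (by decide)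
        · exact absurd (h.symm.trans hi2.1) (by decide)
      by_cases hi3 : i = 3 ∧ 0 < m
      · refine (lt_u hFORM1 hTYPU hm' hi3.2 (hBi i) (hBd i)).mono
          fun Q hQ => ⟨fun h => ?_, fun h => ?_, fun h => ?_, fun _ _ => hQ⟩
        · exact absurd (h.symm.trans hi3.1) (by decide)
        · exact absurd (h.symm.trans hi3.1) (by decide)
        · exact absurd (h.symm.trans hi3.1) (by decide)
      refine (lt_s hFORM1 hTYPS hm' (hBi i) (hBd i)).mono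
          fun Q hQ => ⟨fun h => absurd h hi0, fun _ => hQ, fun h h' => absurd ⟨h, h'⟩ hi2,
            fun h h' => absurd ⟨h, h'⟩ hi3⟩
    obtain ⟨v, Q, hvS, hPv, hmon, hdeg, -, hcon⟩ := realise hMULTI hFROB hCHAR hN hS ρ B hsys (Fin 4) p
      hpinj (fun i => by have := (hplt i).2; omega) hpfull Con hlt
    have hdeg' : Q.natDegree = 2 * m + 2 := by omega
    have hC0 := (hcon 0).1.1 rfl
    obtain ⟨hnice, hQm1⟩ := nice_of_con (S := S) (P := P) hvS hPv hmon (p 0) (m + 1) hC0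
    have hinv : ∀ x : QQ, aeval x Q = 0 → x ≠ 0 ∧ aeval x⁻¹ Q = 0 := by
      intro x hx
      obtain ⟨j⟩ := emb (p 0)
      obtain ⟨h1, h2⟩ := (hcon 0).2 (j x) (push_root (p 0) j hx)
      refine ⟨fun h => h1 (by rw [h, map_zero]), pull_root (p 0) j ?_⟩
      rw [map_inv₀]
      exact h2
    have hMM' : M ≤ M' := le_sup_left
    have hZM' : Z ≤ M' := le_sup_right
    have hsurj := surj hGEN hRES hUNR (m := m) hmon hnice.2.2.2.1 hdeg' hnice.2.2.2.2.1 hQm1 hinv M' f hf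
      hMf (fun ζ hζ => hZM' (mem_Lf (by
        have h5 := X_pow_sub_C_ne_zero (n := 2 * (m + 1)) (by omega) (1 : ℚ)
        rwa [C_1] at h5) (by simp [hζ]))) (p 0) (p 1) (p 2) (p 3)
      (hb _ (hplt 0).1 (hpp 0).out) (hb _ (hplt 1).1 (hpp 1).out) (hb _ (hplt 2).1 (hpp 2).out)
      (hb _ (hplt 3).1 (hpp 3).out) hC0 ((hcon 1).1.2.1 rfl) ((hcon 2).1.2.2.1 rfl)
      ((hcon 3).1.2.2.2 rfl)
    obtain ⟨b', hb'⟩ := hIRR Q hmon hnice.2.2.2.1 (by omega)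
    refine ⟨Lf Q, Cyc Q, Lf_finite Q, Lf_normal Q, ?_, fun g hg h => cyc_conj hg h,
      fun g hg u hu => cyc_mul hmon.ne_zero hg hu, fun g => ?_,
      max b' (max (Ideal.absNorm v₀.asIdeal) (Ideal.absNorm v.asIdeal)), ?_⟩
    · have := Lf_finrank hnice.2.2.2.1
      rwa [hdeg'] at this
    · obtain ⟨h, hh, hgh⟩ := hsurj g
      exact ⟨h, fun x hx => hh x (hMM' hx), hgh⟩
    · rintro ℓ ⟨hp, hnf, hnT⟩ hℓ σ hσ hσC
      simp only [max_lt_iff] at hℓ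
      apply hnf
      have hirr := hb' ℓ hℓ.1 hp σ hσ hσC
      refine full_lie hLINE hTAN hEXP hSPEC hv₀ h0 ℓ (not_mem_of_lt v₀ hp.out hℓ.2.1) (ρ ℓ) (B ℓ)
        (hsys ℓ) ?_
      exact strong_of_irr hBADRED hnice ℓ (not_mem_of_lt v hp.out hℓ.2.2) (ρ ℓ) (B ℓ) (hsys ℓ) hirr hnT
  refine (hkey.union hT).mono ?_
  rintro ℓ ⟨hp, hno⟩
  by_cases ht : TateSubquotient ℓ (ρ ℓ)
  · exact Or.inr ⟨hp, ht⟩
  · refine Or.inl ⟨hp, fun hfull => hno ?_, ht⟩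
    exact hOPEN ℓ _ (GK K) (ρ ℓ) (hsys ℓ).1 (B ℓ) (hsys ℓ).2.1 (hsys ℓ).2.2.1 (hsys ℓ).2.2.2.1 hfull

/-- a place with a full cycle, from an open prime -/
theorem cyc_of_full (hFROB : S_FROB) (hMULTI : S_MULTI) (hCHAR : S_CHAR) (hRES : S_RES)
    (hUNR : S_UNR) (hFORM2 : S_FORM2) (hTYPC : S_TYPC) (hS : S.Finite)
    (ρ : ∀ (ℓ : ℕ) [Fact ℓ.Prime], GK K →* Matrix (Fin (2 * m + 3)) (Fin (2 * m + 3)) ℚ_[ℓ])
    (B : ∀ (ℓ : ℕ) [Fact ℓ.Prime], Matrix (Fin (2 * m + 3)) (Fin (2 * m + 3)) ℚ_[ℓ])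
    (hsys : ∀ (ℓ : ℕ) [Fact ℓ.Prime], Orthogonal K (2 * m + 3) ℓ (ρ ℓ) (B ℓ) S P)
    (ℓ : ℕ) [hℓ : Fact ℓ.Prime] (hdvd : ¬ ℓ ∣ 2 * (m + 1)) (hfull : FullLie ℓ (ρ ℓ) (B ℓ)) :
    ∃ (v₁ : HeightOneSpectrum (𝓞 K)) (Q₁ : ℚ[X]), NicePlace S P v₁ Q₁ ∧ 0 < Q₁.natDegree ∧
      (Cyc Q₁).Nonempty := by
  have hN : Odd (2 * m + 3) := ⟨m + 1, by ring⟩
  have hℓ2 : ℓ ≠ 2 := by
    rintro rfl
    exact hdvd ⟨m + 1, rfl⟩
  have hlt := lt_c hFORM2 hTYPC hℓ2 (norm_natCast_eq_one _ hdvd) (hsys ℓ).2.1 (hsys ℓ).2.2.1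
  obtain ⟨v, Q, hvS, hPv, hmon, hdeg, -, hcon⟩ := realise hMULTI hFROB hCHAR hN hS ρ B hsys Unit
    (fun _ => ℓ) (fun _ _ _ => rfl) (fun _ => hℓ2) (fun _ => hfull)
    (fun _ => ConC ℓ (m + 1)) (fun _ => hlt)
  have hC := (hcon ()).1
  obtain ⟨hnice, -⟩ := nice_of_con (S := S) (P := P) hvS hPv hmon ℓ (m + 1) hC
  refine ⟨v, Q, hnice, by omega, ?_⟩
  obtain ⟨-, -, -, -, h⟩ := hC
  obtain ⟨j⟩ := emb ℓ
  set f : ℤ[X] := X ^ (2 * (m + 1)) - 1 with hf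
  have hfmon : f.Monic := by
    have h1 := monic_X_pow_sub_C (1 : ℤ) (n := 2 * (m + 1)) (by omega)
    rwa [C_1] at h1
  have hfsep : (f.map (Int.castRingHom (ZMod ℓ))).Separable := by
    have h1 : f.map (Int.castRingHom (ZMod ℓ)) = X ^ (2 * (m + 1)) - 1 := by
      rw [hf, Polynomial.map_sub, Polynomial.map_pow, map_X, Polynomial.map_one]
    rw [h1]
    apply X_pow_sub_one_separable_iff.2
    intro h2
    apply hdvd
    exact (ZMod.natCast_eq_zero_iff _ _).1 h2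
  obtain ⟨τ, hτ⟩ := h _ (hUNR ℓ f hfmon hfsep) (by
    intro ζ hζ
    apply IntermediateField.subset_adjoin
    show aeval ζ f = 0
    rw [hf, map_sub, map_pow, aeval_X, map_one, hζ, sub_self])
  obtain ⟨σ, -, hσ⟩ := hRES ℓ j f ⊥ bot_le τ
  refine ⟨σ, fun x y hx hy => ?_⟩
  obtain ⟨i, hi⟩ := hτ (j x) (j y) (push_root ℓ j hx) (push_root ℓ j hy)
  refine ⟨i, ?_⟩
  rw [pow_restrict ℓ j _ τ σ hσ] at hi
  exact j.injective hi

/-- a good place with the spectral condition, from an open odd prime -/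
theorem good_of_full (hFROB : S_FROB) (hMULTI : S_MULTI) (hCHAR : S_CHAR) (hFORM1 : S_FORM1)
    (hTYPX : S_TYPX) (hS : S.Finite)
    (ρ : ∀ (ℓ : ℕ) [Fact ℓ.Prime], GK K →* Matrix (Fin (2 * m + 3)) (Fin (2 * m + 3)) ℚ_[ℓ])
    (B : ∀ (ℓ : ℕ) [Fact ℓ.Prime], Matrix (Fin (2 * m + 3)) (Fin (2 * m + 3)) ℚ_[ℓ])
    (hsys : ∀ (ℓ : ℕ) [Fact ℓ.Prime], Orthogonal K (2 * m + 3) ℓ (ρ ℓ) (B ℓ) S P)
    (ℓ : ℕ) [hℓ : Fact ℓ.Prime] (hℓ2 : ℓ ≠ 2) (hfull : FullLie ℓ (ρ ℓ) (B ℓ)) :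
    ∃ (v₀ : HeightOneSpectrum (𝓞 K)) (Q₀ : ℚ[X]), GoodPlace S P v₀ Q₀ ∧
      (∀ x y z : ℂ, aeval x Q₀ = 0 → aeval y Q₀ = 0 → aeval z Q₀ = 0 → x * y ≠ z) ∧
      (ℓ : 𝓞 K) ∉ v₀.asIdeal := by
  have hN : Odd (2 * m + 3) := ⟨m + 1, by ring⟩
  have hlt := lt_x hFORM1 hTYPX hℓ2 (hsys ℓ).2.1 (hsys ℓ).2.2.1
  obtain ⟨v, Q, hvS, hPv, hmon, hdeg, hvℓ, hcon⟩ := realise hMULTI hFROB hCHAR hN hS ρ B hsys Unit
    (fun _ => ℓ) (fun _ _ _ => rfl) (fun _ => hℓ2) (fun _ => hfull)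
    (fun _ => ConX ℓ) (fun _ => hlt)
  obtain ⟨hroot, hxyz⟩ := (hcon ()).1
  refine ⟨v, Q, ⟨hvS, hPv, fun n hn => ?_⟩, ?_, hvℓ ()⟩
  · apply coprime_of_map (F := ℚ_[ℓ])
    have key := Polynomial.isCoprime_iff_aeval_ne_zero_of_isAlgClosed (k := ℚ_[ℓ])
      (AlgebraicClosure ℚ_[ℓ]) (Q.map (algebraMap ℚ ℚ_[ℓ])) (X ^ n - 1)
    refine key.2 fun a => ?_
    by_cases ha : aeval a (Q.map (algebraMap ℚ ℚ_[ℓ])) = 0
    · right
      intro h1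
      apply hroot n a hn ha
      simpa [sub_eq_zero] using h1
    · exact Or.inl ha
  · intro x y z hx hy hz hxy
    obtain ⟨j⟩ := emb ℓ
    obtain ⟨jc⟩ := nonempty_LC
    have hQ0 : Q ≠ 0 := hmon.ne_zero
    have lift : ∀ w : ℂ, aeval w Q = 0 → ∃ r : QQ, aeval r Q = 0 ∧ jc r = w := by
      intro w hw
      have h1 : eval₂ (Rat.castHom ℂ) w Q = 0 := by
        rw [aeval_def] at hw
        rw [← hw]
        congr 1
      obtain ⟨r, hr, hrw⟩ := root_lift jc hQ0 h1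
      refine ⟨r, ?_, hrw⟩
      rw [aeval_def, ← hr]
      congr 1
    obtain ⟨r, hr, rfl⟩ := lift x hx
    obtain ⟨s, hs, rfl⟩ := lift y hy
    obtain ⟨t, ht, rfl⟩ := lift z hz
    rw [← map_mul] at hxy
    have h2 := jc.injective hxy
    refine hxyz (j r) (j s) (j t) (push_root ℓ j hr) (push_root ℓ j hs) (push_root ℓ j ht) ?_
    rw [← map_mul, h2]

end

end Pool.Agent.Y142.ZI
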