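import Pool.Agent.Y142.ZI.Full

/-!
# Project ZI: the splitting field and the full cycles
-/

set_option autoImplicit false
set_option linter.style.haveILetI false

open Matrix Polynomial Filter Topology NumberField IsDedekindDomain
open Pool.Agent.Y142.ZO

namespace Pool.Agent.Y142.ZI

/-- the same automorphism, with the other (equal) `ℚ`-algebra structure -/
noncomputable def conv (g : GK ℚ) : QQ ≃ₐ[ℚ] QQ := g

theorem conv_apply (g : GK ℚ) (x : QQ) : conv g x = g x := rfl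

/-- automorphisms fixing `L` -/
noncomputable def fixSub (L : IntermediateField ℚ QQ) : Subgroup (GK ℚ) :=
  @IntermediateField.fixingSubgroup ℚ _ QQ _ (AlgebraicClosure.instAlgebra ℚ) L

theorem mem_fixSub {L : IntermediateField ℚ QQ} {g : GK ℚ} : g ∈ fixSub L ↔ ∀ x ∈ L, g x = x :=
  @IntermediateField.mem_fixingSubgroup_iff ℚ _ QQ _ (AlgebraicClosure.instAlgebra ℚ) L g

theorem fixSub_open (L : IntermediateField ℚ QQ) (h : FiniteDimensional ℚ L) :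
    IsOpen (fixSub L : Set (GK ℚ)) :=
  @IntermediateField.fixingSubgroup_isOpen ℚ QQ _ _ (AlgebraicClosure.instAlgebra ℚ) L h

theorem aeval_aut {Q : ℚ[X]} (g : GK ℚ) {x : QQ} (hx : aeval x Q = 0) : aeval (g x) Q = 0 := by
  have h := aeval_algHom_apply (conv g).toAlgHom x Q
  rw [hx, map_zero] at h
  exact h

theorem isalg : Algebra.IsAlgebraic ℚ QQ := AlgebraicClosure.isAlgebraic ℚ

theorem normalQQ : Normal ℚ QQ := by
  haveI := isalg
  exact normal_iff.2 fun x => ⟨(Algebra.IsAlgebraic.isAlgebraic x).isIntegral, IsAlgClosed.splits _⟩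

theorem fixSub_normal (L : IntermediateField ℚ QQ) (hL : Normal ℚ L) : (fixSub L).Normal := by
  haveI := normalQQ
  constructor
  intro g hg h
  rw [mem_fixSub] at hg ⊢
  intro x hx
  have h1 : h⁻¹ x ∈ L := by
    have h2 := (IntermediateField.normal_iff_forall_map_eq' (F := ℚ) (L := QQ) (K := L)).1 hL (conv h⁻¹)
    rw [← h2]
    exact ⟨x, hx, rfl⟩
  rw [AlgEquiv.mul_apply, AlgEquiv.mul_apply, hg _ h1, ← AlgEquiv.mul_apply, mul_inv_cancel,
    AlgEquiv.one_apply]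

/-- automorphisms acting as a full cycle on the roots of `Q` -/
def Cyc (Q : ℚ[X]) : Set (GK ℚ) :=
  {g | ∀ x y : QQ, aeval x Q = 0 → aeval y Q = 0 → ∃ k : ℕ, (g ^ k) x = y}

/-- the splitting field of `Q` -/
noncomputable def Lf (Q : ℚ[X]) : IntermediateField ℚ QQ := IntermediateField.adjoin ℚ (Q.rootSet QQ)

theorem mem_Lf {Q : ℚ[X]} (hQ : Q ≠ 0) {x : QQ} (hx : aeval x Q = 0) : x ∈ Lf Q :=
  IntermediateField.subset_adjoin _ _ ((mem_rootSet_of_ne hQ).2 hx)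

theorem Lf_split (Q : ℚ[X]) : IsSplittingField ℚ (Lf Q) Q :=
  IntermediateField.adjoin_rootSet_isSplittingField (IsAlgClosed.splits _)

theorem Lf_finite (Q : ℚ[X]) : FiniteDimensional ℚ (Lf Q) := by
  haveI := Lf_split Q
  exact IsSplittingField.finiteDimensional (Lf Q) Q

theorem Lf_normal (Q : ℚ[X]) : Normal ℚ (Lf Q) := by
  haveI := Lf_split Q
  exact Normal.of_isSplittingField Q

theorem Lf_finrank {Q : ℚ[X]} (hQ : Q.Separable) : Module.finrank ℚ (Lf Q) ≤ Q.natDegree.factorial := by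
  classical
  haveI := Lf_split Q
  have h1 : Module.finrank ℚ (Lf Q) = Module.finrank ℚ Q.SplittingField :=
    LinearEquiv.finrank_eq (IsSplittingField.algEquiv (Lf Q) Q).toLinearEquiv
  rw [h1, ← Gal.card_of_separable hQ]
  haveI : Fact ((Q.map (algebraMap ℚ QQ)).Splits) := ⟨IsAlgClosed.splits _⟩
  have h2 : Nat.card Q.Gal ≤ Nat.card (Equiv.Perm (Q.rootSet QQ)) :=
    Nat.card_le_card_of_injective _ (Gal.galActionHom_injective Q QQ)
  refine h2.trans ?_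
  rw [Nat.card_perm]
  apply Nat.factorial_le
  rw [Nat.card_coe_set_eq, rootSet_def, Set.ncard_coe_finset]
  refine (Multiset.toFinset_card_le _).trans ?_
  refine (card_roots' _).trans ?_
  exact natDegree_map_le

theorem pow_aut {Q : ℚ[X]} (g : GK ℚ) (k : ℕ) {x : QQ} (hx : aeval x Q = 0) :
    aeval ((g ^ k) x) Q = 0 := aeval_aut (g ^ k) hx

theorem cyc_conj {Q : ℚ[X]} {g : GK ℚ} (hg : g ∈ Cyc Q) (h : GK ℚ) : h * g * h⁻¹ ∈ Cyc Q := by
  intro x y hx hy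
  obtain ⟨k, hk⟩ := hg (h⁻¹ x) (h⁻¹ y) (aeval_aut _ hx) (aeval_aut _ hy)
  refine ⟨k, ?_⟩
  rw [conj_pow, AlgEquiv.mul_apply, AlgEquiv.mul_apply, hk, ← AlgEquiv.mul_apply, mul_inv_cancel,
    AlgEquiv.one_apply]

theorem cyc_mul' {Q : ℚ[X]} {g : GK ℚ} (hg : g ∈ Cyc Q) {u : GK ℚ}
    (hu : ∀ x : QQ, aeval x Q = 0 → u x = x) : g * u ∈ Cyc Q := by
  have key : ∀ (k : ℕ) (x : QQ), aeval x Q = 0 → ((g * u) ^ k) x = (g ^ k) x := by
    intro k
    induction k with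
    | zero => intro x _; rw [pow_zero, pow_zero]
    | succ k ih =>
      intro x hx
      rw [pow_succ, pow_succ, AlgEquiv.mul_apply, AlgEquiv.mul_apply, AlgEquiv.mul_apply, hu x hx,
        ih _ (aeval_aut _ hx)]
  intro x y hx hy
  obtain ⟨k, hk⟩ := hg x y hx hy
  exact ⟨k, by rw [key k x hx, hk]⟩

theorem cyc_mul {Q : ℚ[X]} (hQ : Q ≠ 0) {g : GK ℚ} (hg : g ∈ Cyc Q) {u : GK ℚ}
    (hu : ∀ x ∈ Lf Q, u x = x) : g * u ∈ Cyc Q :=
  cyc_mul' hg fun x hx => hu x (mem_Lf hQ hx)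

/-- infinitely many primes outside a thin set with a Frobenius element acting as a full cycle -/
theorem exists_cyc (hPOS : S_POS) {Q : ℚ[X]} (hQ : Q ≠ 0) (hne : (Cyc Q).Nonempty) (A : Set ℕ)
    (hA : DensityZero A) (b : ℕ) :
    ∃ ℓ : ℕ, b < ℓ ∧ ℓ.Prime ∧ ℓ ∉ A ∧ ∃ σ ∈ Cyc Q, FrobAt ℓ σ := by
  refine hPOS (fixSub (Lf Q)) (fixSub_normal _ (Lf_normal Q)) (fixSub_open _ (Lf_finite Q)) (Cyc Q) hne
    (fun g hg h => cyc_conj hg h) (fun g hg u hu => ?_) A hA b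
  exact cyc_mul hQ hg (mem_fixSub.1 hu)

/-- roots of rational polynomials in the closure of `ℚ_ℓ` come from `QQ` -/
theorem lift_root (ℓ : ℕ) [Fact ℓ.Prime] (ι : QQ →+* AlgebraicClosure ℚ_[ℓ]) {Q : ℚ[X]} (hQ : Q ≠ 0)
    {x : AlgebraicClosure ℚ_[ℓ]} (hx : aeval x (Q.map (algebraMap ℚ ℚ_[ℓ])) = 0) :
    ∃ r : QQ, aeval r Q = 0 ∧ ι r = x := by
  have h1 : eval₂ (Rat.castHom (AlgebraicClosure ℚ_[ℓ])) x Q = 0 := by
    rw [aeval_def, eval₂_map] at hx
    rw [← hx]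
    congr 1
  obtain ⟨r, hr, hrx⟩ := root_lift ι hQ h1
  refine ⟨r, ?_, hrx⟩
  rw [aeval_def, ← hr]
  congr 1

theorem push_root (ℓ : ℕ) [Fact ℓ.Prime] (ι : QQ →+* AlgebraicClosure ℚ_[ℓ]) {Q : ℚ[X]} {r : QQ}
    (hr : aeval r Q = 0) : aeval (ι r) (Q.map (algebraMap ℚ ℚ_[ℓ])) = 0 := by
  have h1 := congrArg ι hr
  rw [aeval_def, hom_eval₂, map_zero] at h1
  rw [aeval_def, eval₂_map, ← h1]
  congr 1
  exact Subsingleton.elim _ _

end Pool.Agent.Y142.ZI
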