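import Pool.Agent.Y142.ZI.Stm

set_option autoImplicit false

/-! Project Y142-ZI: tensor invariants. -/

open Matrix Polynomial Filter Topology NumberField IsDedekindDomain
open Pool.Agent.Y142.ZO

namespace Pool.Agent.Y142.ZI

/-- every multilinear form in `k < N` variables which is invariant under an open subgroup is a linear
combination of products `∏ B(v_j, v_{π j})`, for perfect matchings `π` -/
def FormsFromB (ℓ : ℕ) [Fact ℓ.Prime] {N : ℕ} {G : Type} [Group G] [TopologicalSpace G]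
    (ρ : G →* Matrix (Fin N) (Fin N) ℚ_[ℓ]) (B : Matrix (Fin N) (Fin N) ℚ_[ℓ]) : Prop :=
  ∀ (k : ℕ) (φ : MultilinearMap ℚ_[ℓ] (fun _ : Fin k => Fin N → ℚ_[ℓ]) ℚ_[ℓ]) (U : Subgroup G),
    k < N → IsOpen (U : Set G) → (∀ σ ∈ U, ∀ v, φ (fun j => ρ σ *ᵥ v j) = φ v) →
    (fun v => φ v) ∈ Submodule.span ℚ_[ℓ] {f : (Fin k → Fin N → ℚ_[ℓ]) → ℚ_[ℓ] |
      ∃ π : Equiv.Perm (Fin k), (∀ j, π (π j) = j) ∧ (∀ j, π j ≠ j) ∧
        ∀ v, f v = ∏ j with j < π j, (v j ⬝ᵥ B *ᵥ v (π j))}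

/-- task TENS -/
def S_TENS : Prop := ∀ (ℓ : ℕ) [Fact ℓ.Prime] (N : ℕ) (G : Type) [Group G]
  [TopologicalSpace G] [IsTopologicalGroup G] [CompactSpace G]
  (ρ : G →* Matrix (Fin N) (Fin N) ℚ_[ℓ]), Continuous ρ →
  ∀ B : Matrix (Fin N) (Fin N) ℚ_[ℓ], Bᵀ = B → B.det ≠ 0 →
  FullLie ℓ ρ B → FormsFromB ℓ ρ B

end Pool.Agent.Y142.ZI
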