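import Pool.Agent.Y142.ZI.Top
import Pool.Agent.Y142.ZI.Stm3

/-!
# Project ZI: the final theorems, with all tasks as hypotheses
-/

set_option autoImplicit false
set_option linter.style.haveILetI false

open Matrix Polynomial Filter Topology NumberField IsDedekindDomain
open Pool.Agent.Y142.ZO

namespace Pool.Agent.Y142.ZI

section
variable {K : Type} [Field K] [NumberField K] {m : ℕ} {S : Set (HeightOneSpectrum (𝓞 K))}
  {P : HeightOneSpectrum (𝓞 K) → ℚ[X]}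

/-- the Frobenius polynomials are monic of degree `N` -/
theorem monic_of_sys {N : ℕ}
    (ρ : ∀ (ℓ : ℕ) [Fact ℓ.Prime], GK K →* Matrix (Fin N) (Fin N) ℚ_[ℓ])
    (B : ∀ (ℓ : ℕ) [Fact ℓ.Prime], Matrix (Fin N) (Fin N) ℚ_[ℓ])
    (hsys : ∀ (ℓ : ℕ) [Fact ℓ.Prime], Orthogonal K N ℓ (ρ ℓ) (B ℓ) S P)
    {v : HeightOneSpectrum (𝓞 K)} (hv : v ∉ S) : (P v).Monic ∧ (P v).natDegree = N := by
  obtain ⟨ℓ, hℓ, hp⟩ := Nat.exists_infinite_primes (Ideal.absNorm v.asIdeal + 1)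
  haveI : Fact ℓ.Prime := ⟨hp⟩
  have hvℓ := not_mem_of_lt v hp (by omega : Ideal.absNorm v.asIdeal < ℓ)
  obtain ⟨σ, hσ⟩ := Pool.Agent.W401.Frob.exists_frob v
  have h1 := (hsys ℓ).2.2.2.2 v hv hvℓ σ hσ
  have h2 := charpoly_monic (ρ ℓ σ⁻¹)
  have h3 := charpoly_natDegree_eq_dim (ρ ℓ σ⁻¹)
  rw [h1] at h2 h3
  refine ⟨monic_of_injective (algebraMap ℚ ℚ_[ℓ]).injective h2, ?_⟩
  rw [natDegree_map, Fintype.card_fin] at h3
  exact h3

theorem nice_of_complex {N : ℕ}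
    (ρ : ∀ (ℓ : ℕ) [Fact ℓ.Prime], GK K →* Matrix (Fin N) (Fin N) ℚ_[ℓ])
    (B : ∀ (ℓ : ℕ) [Fact ℓ.Prime], Matrix (Fin N) (Fin N) ℚ_[ℓ])
    (hsys : ∀ (ℓ : ℕ) [Fact ℓ.Prime], Orthogonal K N ℓ (ρ ℓ) (B ℓ) S P)
    {v : HeightOneSpectrum (𝓞 K)} (hv : v ∉ S) {Q : ℚ[X]} (hPv : P v = (X - 1) * Q)
    (hsep : Q.Separable) (h1 : ∀ n : ℕ, 0 < n → ∀ x : ℂ, aeval x Q = 0 → x ^ n ≠ 1)
    (h2 : ∀ n : ℕ, 0 < n → ∀ x y : ℂ, aeval x Q = 0 → aeval y Q = 0 → x ^ n = y ^ n → x = y) :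
    NicePlace S P v Q ∧ Q.natDegree + 1 = N := by
  obtain ⟨hmonP, hdegP⟩ := monic_of_sys ρ B hsys hv
  have hX : (X - 1 : ℚ[X]).Monic := by
    have := monic_X_sub_C (1 : ℚ)
    rwa [C_1] at this
  have hXd : (X - 1 : ℚ[X]).natDegree = 1 := by
    have := natDegree_X_sub_C (1 : ℚ)
    rwa [C_1] at this
  have hmon : Q.Monic := by
    rw [hPv] at hmonP
    exact hX.of_mul_monic_left hmonP
  refine ⟨⟨hv, hPv, hmon, hsep, ?_, ?_⟩, ?_⟩
  · intro h
    apply h1 1 one_pos 1 _ (one_pow 1)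
    have h3 : aeval (algebraMap ℚ ℂ 1) Q = algebraMap ℚ ℂ (Q.eval 1) :=
      aeval_algebraMap_apply_eq_algebraMap_eval _ _
    rw [map_one, h, map_zero] at h3
    exact h3
  · obtain ⟨jc⟩ := nonempty_LC
    have push : ∀ r : QQ, aeval r Q = 0 → aeval (jc r) Q = 0 := by
      intro r hr
      have h3 := congrArg jc hr
      rw [aeval_def, hom_eval₂, map_zero] at h3
      rw [aeval_def, ← h3]
      congr 1
      exact Subsingleton.elim _ _
    intro j x y hj hx hy hxy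
    rw [map_mul, map_sub, aeval_X, map_one, mul_eq_zero, sub_eq_zero] at hx hy
    rcases hx with rfl | hx <;> rcases hy with rfl | hy
    · rfl
    · exfalso
      rw [one_pow] at hxy
      apply h1 j hj (jc y) (push y hy)
      rw [← map_pow, ← hxy, map_one]
    · exfalso
      rw [one_pow] at hxy
      apply h1 j hj (jc x) (push x hx)
      rw [← map_pow, hxy, map_one]
    · apply jc.injective
      refine h2 j hj _ _ (push x hx) (push y hy) ?_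
      rw [← map_pow, hxy, map_pow]
  · rw [hPv, hX.natDegree_mul hmon, hXd] at hdegP
    omega

end

end Pool.Agent.Y142.ZI
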