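import Pool.Agent.Y142.ZI.So
import Pool.Agent.Y142.ZO.Main

/-!
# Project ZI: at a prime of strong irreducibility the Lie algebra is full
-/

set_option autoImplicit false

open Matrix Polynomial Filter Topology NumberField IsDedekindDomain
open Pool.Agent.Y142.ZO

namespace Pool.Agent.Y142.ZI

section
variable {K : Type} [Field K] [NumberField K] {N : ℕ} {S : Set (HeightOneSpectrum (𝓞 K))}
  {P : HeightOneSpectrum (𝓞 K) → ℚ[X]}

theorem full_lie (hLINE : S_LINE) (hTAN : S_TAN) (hEXP : S_EXP) (hSPEC : S_SPEC)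
    {v₀ : HeightOneSpectrum (𝓞 K)} {Q₀ : ℚ[X]} (hv₀ : GoodPlace S P v₀ Q₀)
    (h0 : ∀ x y z : ℂ, aeval x Q₀ = 0 → aeval y Q₀ = 0 → aeval z Q₀ = 0 → x * y ≠ z)
    (ℓ : ℕ) [hℓ : Fact ℓ.Prime] (hv₀ℓ : (ℓ : 𝓞 K) ∉ v₀.asIdeal)
    (ρ : GK K →* Matrix (Fin N) (Fin N) ℚ_[ℓ]) (B : Matrix (Fin N) (Fin N) ℚ_[ℓ])
    (hsys : Orthogonal K N ℓ ρ B S P) (hgood : StronglyIrreducible ℓ ρ) :
    FullLie ℓ ρ B := by
  obtain ⟨hcont, hB, hdet, hiso, hfrob⟩ := hsys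
  have hiso' : ∀ g, Isom B (ρ g) := hiso
  obtain ⟨hv₀S, hP₀, hcop⟩ := hv₀
  obtain ⟨σ₀, hσ₀⟩ := Pool.Agent.W401.Frob.exists_frob v₀
  have hchar := hfrob v₀ hv₀S hv₀ℓ σ₀ hσ₀
  set g : Matrix (Fin N) (Fin N) ℚ_[ℓ] := ρ σ₀⁻¹ with hg
  set Q : ℚ_[ℓ][X] := Q₀.map (algebraMap ℚ ℚ_[ℓ]) with hQ
  have hchar' : g.charpoly = (X - 1) * Q := by
    rw [hchar, hP₀, Polynomial.map_mul, Polynomial.map_sub, map_X, Polynomial.map_one]
  have hcopQ : ∀ n : ℕ, 0 < n → IsCoprime Q (X ^ n - 1) := fun n hn => coprime_map (hcop n hn)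
  have hQ0 := eval_ne_zero_of_coprime hcopQ
  have hQ1 : Q.eval 1 ≠ 0 := left_ne_zero_of_mul hQ0
  obtain ⟨e, he, hbe⟩ := hLINE ℚ_[ℓ] N B g Q hB hdet (hiso' _) hchar' hQ1
  have hge : g *ᵥ e = e := by
    have h1 := he.2.1
    rw [sub_mulVec, one_mulVec, sub_eq_zero] at h1
    exact h1
  obtain ⟨𝔤, h𝔤, hbr, had, hskew⟩ := hTAN ℓ N (GK K) ρ
  have hskew' := hskew B hB hiso'
  have hinv : g⁻¹ = ρ σ₀ := by
    apply Matrix.inv_eq_right_inv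
    rw [hg, ← map_mul, inv_mul_cancel, map_one]
  have hQ₀0 : Q₀ ≠ 0 := by
    rintro rfl
    rw [hQ, Polynomial.map_zero, eval_zero] at hQ1
    exact hQ1 rfl
  have hspec : ∀ x y z : AlgebraicClosure ℚ_[ℓ], aeval x Q = 0 → aeval y Q = 0 → aeval z Q = 0 →
      x * y ≠ z := by
    intro x y z hx hy hz
    have conv : ∀ w : AlgebraicClosure ℚ_[ℓ], aeval w Q = 0 →
        eval₂ (Rat.castHom (AlgebraicClosure ℚ_[ℓ])) w Q₀ = 0 := by
      intro w hw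
      rw [aeval_def, hQ, eval₂_map] at hw
      rw [← hw]
      congr 1
    exact transfer hQ₀0 h0 _ x y z (conv x hx) (conv y hy) (conv z hz)
  have hsplit := hSPEC ℚ_[ℓ] N B g e Q 𝔤 hB hdet (hiso' _) hge hbe hchar' hspec hskew' (by
    intro Z hZ
    rw [hinv]
    have := had σ₀⁻¹ Z hZ
    rwa [inv_inv] at this)
  intro X hX
  refine (h𝔤 X).1 (so_main ℚ_[ℓ] N B e 𝔤 hB hdet hskew' hbr hsplit hbe ?_ X hX)
  intro W hW
  obtain ⟨U, hU, hUW⟩ := hEXP ℓ N (GK K) ρ hcont W W le_rfl (fun X hX w hw => hW X ((h𝔤 X).2 hX) w hw)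
  refine hgood U W hU fun σ hσ w hw => ?_
  have h1 := W.add_mem (hUW σ hσ w hw) hw
  rwa [sub_add_cancel] at h1

/-- a strongly irreducible representation of dimension at least two has no Tate subquotient -/
theorem not_tate (ℓ : ℕ) [hℓ : Fact ℓ.Prime] {G : Type} [Group G] [TopologicalSpace G] (hN : 2 ≤ N)
    (ρ : G →* Matrix (Fin N) (Fin N) ℚ_[ℓ]) (h : StronglyIrreducible ℓ ρ) :
    ¬ TateSubquotient ℓ ρ := by
  rintro ⟨U, W', W, hU, hWW, hUW⟩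
  have hst : ∀ W₁ : Submodule ℚ_[ℓ] (Fin N → ℚ_[ℓ]), W' ≤ W₁ → W₁ ≤ W →
      ∀ σ ∈ U, ∀ w ∈ W₁, ρ σ *ᵥ w ∈ W₁ := by
    intro W₁ h1 h2 σ hσ w hw
    have h3 := W₁.add_mem (h1 (hUW σ hσ w (h2 hw))) hw
    rwa [sub_add_cancel] at h3
  have hW' : W' = ⊥ := by
    rcases h U W' hU (hst W' le_rfl hWW.le) with h1 | h1
    · exact h1
    · rw [h1] at hWW
      exact absurd hWW not_top_lt
  have hW : W = ⊤ := by
    rcases h U W hU (hst W hWW.le le_rfl) with h1 | h1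
    · rw [h1, hW'] at hWW
      exact absurd hWW (lt_irrefl _)
    · exact h1
  subst hW' hW
  have h0 : (0 : ℕ) < N := by omega
  have h1' : (1 : ℕ) < N := by omega
  set e : Fin N → ℚ_[ℓ] := Pi.single ⟨0, h0⟩ 1 with he
  rcases h U (Submodule.span ℚ_[ℓ] {e}) hU (hst _ bot_le le_top) with h1 | h1
  · rw [Submodule.span_singleton_eq_bot] at h1
    have := congrFun h1 ⟨0, h0⟩
    simp [he] at this
  · have h2 : (Pi.single ⟨1, h1'⟩ 1 : Fin N → ℚ_[ℓ]) ∈ Submodule.span ℚ_[ℓ] {e} := by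
      rw [h1]; exact Submodule.mem_top
    obtain ⟨a, ha⟩ := Submodule.mem_span_singleton.1 h2
    have := congrFun ha ⟨1, h1'⟩
    simp [he] at this

end

end Pool.Agent.Y142.ZI
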