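import Pool.Agent.Y142.ZI.Stm

set_option autoImplicit false

/-! Project Y142-ZI: statements of three further tasks. -/

open Matrix Polynomial Filter Topology NumberField IsDedekindDomain
open Pool.Agent.Y142.ZO

namespace Pool.Agent.Y142.ZI

/-- task CAY: an open image has full Lie algebra (Cayley transforms) -/
def S_CAY : Prop := ∀ (ℓ : ℕ) [Fact ℓ.Prime] (N : ℕ) (G : Type) [Group G]
  (ρ : G →* Matrix (Fin N) (Fin N) ℚ_[ℓ]) (B : Matrix (Fin N) (Fin N) ℚ_[ℓ]), Bᵀ = B →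
  B.det ≠ 0 → OpenImage ℓ ρ B → FullLie ℓ ρ B

/-- task NT: no Tate subquotient if the Lie algebra is full -/
def S_NT : Prop := ∀ (ℓ : ℕ) [Fact ℓ.Prime] (N : ℕ), 2 ≤ N → ∀ (G : Type) [Group G]
  [TopologicalSpace G] [IsTopologicalGroup G] [CompactSpace G]
  (ρ : G →* Matrix (Fin N) (Fin N) ℚ_[ℓ]), Continuous ρ →
  ∀ B : Matrix (Fin N) (Fin N) ℚ_[ℓ], Bᵀ = B → B.det ≠ 0 →
  FullLie ℓ ρ B → ¬ TateSubquotient ℓ ρ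

/-- task TYPX: local type generic -/
def S_TYPX : Prop := ∀ (ℓ : ℕ) [Fact ℓ.Prime], ℓ ≠ 2 → ∀ (m : ℕ),
  ∃ A : Matrix (Fin m) (Fin m) ℚ_[ℓ], ∀ c : ℚ_[ℓ], ‖c‖ = (ℓ : ℝ)⁻¹ → ∃ (ε : ℝ) (k₀ : ℕ), 0 < ε ∧
  ∀ (k : ℕ) (Q : ℚ_[ℓ][X]), k₀ ≤ k → 0 < k → Q.Monic → Q.natDegree = 2 * m + 2 →
    (∀ j, ‖(resc ℓ k Q - (X ^ 2 - C c) * A.charpoly * (-A).charpoly).coeff j‖ < ε) →
    (∀ (n : ℕ) (x : AlgebraicClosure ℚ_[ℓ]), 0 < n → aeval x Q = 0 → x ^ n ≠ 1) ∧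
    ∀ x y z : AlgebraicClosure ℚ_[ℓ], aeval x Q = 0 → aeval y Q = 0 → aeval z Q = 0 → x * y ≠ z

end Pool.Agent.Y142.ZI
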