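import Pool.Agent.Y142.ZI.Fields
import Pool.Agent.Y142.ZI.Resc
import Pool.Agent.Y142.ZI.Stm2

/-!
# Project ZI: nice places and the first open primes
-/

set_option autoImplicit false
set_option linter.style.haveILetI false

open Matrix Polynomial Filter Topology NumberField IsDedekindDomain
open Pool.Agent.Y142.ZO

namespace Pool.Agent.Y142.ZI

theorem emb (ℓ : ℕ) [Fact ℓ.Prime] : Nonempty (QQ →+* AlgebraicClosure ℚ_[ℓ]) := by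
  haveI := isalg
  exact ⟨((IsAlgClosed.lift : QQ →ₐ[ℚ] AlgebraicClosure ℚ_[ℓ]) : QQ →+* AlgebraicClosure ℚ_[ℓ])⟩

theorem nonempty_LC : Nonempty (QQ →+* ℂ) := by
  haveI := isalg
  exact ⟨((IsAlgClosed.lift : QQ →ₐ[ℚ] ℂ) : QQ →+* ℂ)⟩

section
variable {K : Type} [Field K] [NumberField K] {N : ℕ} {S : Set (HeightOneSpectrum (𝓞 K))}
  {P : HeightOneSpectrum (𝓞 K) → ℚ[X]}

/-- a place with separable Frobenius polynomial `(X-1) Q` whose roots have distinct powers -/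
def NicePlace (S : Set (HeightOneSpectrum (𝓞 K))) (P : HeightOneSpectrum (𝓞 K) → ℚ[X])
    (v : HeightOneSpectrum (𝓞 K)) (Q : ℚ[X]) : Prop :=
  v ∉ S ∧ P v = (X - 1) * Q ∧ Q.Monic ∧ Q.Separable ∧ Q.eval 1 ≠ 0 ∧
    ∀ (j : ℕ) (x y : QQ), 0 < j → aeval x ((X - 1) * Q) = 0 → aeval y ((X - 1) * Q) = 0 →
      x ^ j = y ^ j → x = y

theorem strong_of_irr (hBADRED : S_BADRED) {v : HeightOneSpectrum (𝓞 K)} {Q : ℚ[X]}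
    (hv : NicePlace S P v Q) (ℓ : ℕ) [hℓ : Fact ℓ.Prime] (hvℓ : (ℓ : 𝓞 K) ∉ v.asIdeal)
    (ρ : GK K →* Matrix (Fin N) (Fin N) ℚ_[ℓ]) (B : Matrix (Fin N) (Fin N) ℚ_[ℓ])
    (hsys : Orthogonal K N ℓ ρ B S P) (hirr : Irreducible (Q.map (algebraMap ℚ ℚ_[ℓ])))
    (htate : ¬ TateSubquotient ℓ ρ) : StronglyIrreducible ℓ ρ := by
  obtain ⟨hvS, hPv, hmon, hsep, hQ1, hpow⟩ := hv
  obtain ⟨hcont, hB, hdet, hiso, hfrob⟩ := hsys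
  intro U W hU hW
  by_contra hcon
  push Not at hcon
  apply htate
  obtain ⟨σ, hσ⟩ := Pool.Agent.W401.Frob.exists_frob v
  have hchar := hfrob v hvS hvℓ σ hσ
  have hchar' : (ρ σ⁻¹).charpoly = (X - 1) * Q.map (algebraMap ℚ ℚ_[ℓ]) := by
    rw [hchar, hPv, Polynomial.map_mul, Polynomial.map_sub, map_X, Polynomial.map_one]
  have h1 : (Q.map (algebraMap ℚ ℚ_[ℓ])).eval 1 ≠ 0 := by
    have h2 := eval_map_rat (F := ℚ_[ℓ]) Q 1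
    rw [map_one] at h2
    rw [h2]
    exact (_root_.map_ne_zero _).2 hQ1
  refine hBADRED ℓ N (GK K) ρ hcont B hB hdet hiso U W hU hW hcon.1 hcon.2 σ⁻¹ _ hchar' hirr h1 ?_
  intro k hk x y hx hy hxy
  obtain ⟨ι⟩ := emb ℓ
  have hne : ((X - 1) * Q : ℚ[X]) ≠ 0 := by
    refine mul_ne_zero ?_ hmon.ne_zero
    have := X_sub_C_ne_zero (1 : ℚ)
    rwa [C_1] at this
  rw [hchar, hPv] at hx hy
  obtain ⟨r, hr, rfl⟩ := lift_root ℓ ι hne hx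
  obtain ⟨s, hs, rfl⟩ := lift_root ℓ ι hne hy
  rw [← map_pow, ← map_pow] at hxy
  rw [hpow k r s hk hr hs (ι.injective hxy)]

/-- a nice place with a full cycle gives infinitely many primes with full Lie algebra -/
theorem inf_open (hLINE : S_LINE) (hTAN : S_TAN) (hEXP : S_EXP) (hSPEC : S_SPEC)
    (hBADRED : S_BADRED) (hPOS : S_POS) (hIRR : S_IRR)
    {v₀ : HeightOneSpectrum (𝓞 K)} {Q₀ : ℚ[X]} (hv₀ : GoodPlace S P v₀ Q₀)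
    (h0 : ∀ x y z : ℂ, aeval x Q₀ = 0 → aeval y Q₀ = 0 → aeval z Q₀ = 0 → x * y ≠ z)
    (ρ : ∀ (ℓ : ℕ) [Fact ℓ.Prime], GK K →* Matrix (Fin N) (Fin N) ℚ_[ℓ])
    (B : ∀ (ℓ : ℕ) [Fact ℓ.Prime], Matrix (Fin N) (Fin N) ℚ_[ℓ])
    (hsys : ∀ (ℓ : ℕ) [Fact ℓ.Prime], Orthogonal K N ℓ (ρ ℓ) (B ℓ) S P)
    (hT : DensityZero (TateSet ρ)) {v : HeightOneSpectrum (𝓞 K)} {Q : ℚ[X]}
    (hv : NicePlace S P v Q) (hdeg : 0 < Q.natDegree) (hne : (Cyc Q).Nonempty) (b : ℕ) :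
    ∃ ℓ : ℕ, b < ℓ ∧ ∃ _ : Fact ℓ.Prime, FullLie ℓ (ρ ℓ) (B ℓ) := by
  obtain ⟨b₁, hb₁⟩ := hIRR Q hv.2.2.1 hv.2.2.2.1 hdeg
  obtain ⟨ℓ, hℓ, hp, hℓT, σ, hσ, hσℓ⟩ := exists_cyc hPOS hv.2.2.1.ne_zero hne (TateSet ρ) hT
    (max (max b b₁) (max (Ideal.absNorm v₀.asIdeal) (Ideal.absNorm v.asIdeal)))
  simp only [max_lt_iff] at hℓ
  haveI : Fact ℓ.Prime := ⟨hp⟩
  have hirr := hb₁ ℓ hℓ.1.2 ⟨hp⟩ σ hσℓ hσ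
  have hnT : ¬ TateSubquotient ℓ (ρ ℓ) := fun h => hℓT ⟨⟨hp⟩, h⟩
  refine ⟨ℓ, hℓ.1.1, ⟨hp⟩, ?_⟩
  refine full_lie hLINE hTAN hEXP hSPEC hv₀ h0 ℓ (not_mem_of_lt v₀ hp hℓ.2.1) (ρ ℓ) (B ℓ) (hsys ℓ) ?_
  exact strong_of_irr hBADRED hv ℓ (not_mem_of_lt v hp hℓ.2.2) (ρ ℓ) (B ℓ) (hsys ℓ) hirr hnT

end

/-! ### local types -/

/-- the condition `Con` on `Q` follows from closeness to a suitable tangent vector -/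
def LocalType (ℓ : ℕ) [Fact ℓ.Prime] (N : ℕ) (B : Matrix (Fin N) (Fin N) ℚ_[ℓ])
    (Con : ℚ_[ℓ][X] → Prop) : Prop :=
  ∃ (T : Matrix (Fin N) (Fin N) ℚ_[ℓ]) (R₀ : ℚ_[ℓ][X]) (ε : ℝ) (k₀ : ℕ), Skew B T ∧
    T.charpoly = X * R₀ ∧
    0 < ε ∧ ∀ (k : ℕ) (Q : ℚ_[ℓ][X]), k₀ ≤ k → 0 < k → Q.Monic → Q.natDegree = N - 1 →
      (∀ x : AlgebraicClosure ℚ_[ℓ], aeval x Q = 0 → x ≠ 0 ∧ aeval x⁻¹ Q = 0) →
      (∀ j, ‖(resc ℓ k Q - R₀).coeff j‖ < ε) → Con Q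

def ConC (ℓ : ℕ) [Fact ℓ.Prime] (n : ℕ) (Q : ℚ_[ℓ][X]) : Prop :=
  Q.Separable ∧ Q.eval 1 ≠ 0 ∧ Q.eval (-1) ≠ 0 ∧
    (∀ (j : ℕ) (x y : AlgebraicClosure ℚ_[ℓ]), 0 < j → aeval x ((X - 1) * Q) = 0 →
      aeval y ((X - 1) * Q) = 0 → x ^ j = y ^ j → x = y) ∧
    ∀ F : IntermediateField ℚ_[ℓ] (AlgebraicClosure ℚ_[ℓ]), Unr ℓ F →
      (∀ ζ : AlgebraicClosure ℚ_[ℓ], ζ ^ (2 * n) = 1 → ζ ∈ F) →
      ∃ τ : AlgebraicClosure ℚ_[ℓ] ≃ₐ[F] AlgebraicClosure ℚ_[ℓ],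
        ∀ x y : AlgebraicClosure ℚ_[ℓ], aeval x Q = 0 → aeval y Q = 0 → ∃ i : ℕ, (τ ^ i) x = y

def ConX (ℓ : ℕ) [Fact ℓ.Prime] (Q : ℚ_[ℓ][X]) : Prop :=
  (∀ (n : ℕ) (x : AlgebraicClosure ℚ_[ℓ]), 0 < n → aeval x Q = 0 → x ^ n ≠ 1) ∧
    ∀ x y z : AlgebraicClosure ℚ_[ℓ], aeval x Q = 0 → aeval y Q = 0 → aeval z Q = 0 → x * y ≠ z

def ConS (ℓ : ℕ) [Fact ℓ.Prime] (Q : ℚ_[ℓ][X]) : Prop :=
  ∀ F : IntermediateField ℚ_[ℓ] (AlgebraicClosure ℚ_[ℓ]), Unr ℓ F →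
    ∃ (τ : AlgebraicClosure ℚ_[ℓ] ≃ₐ[F] AlgebraicClosure ℚ_[ℓ]) (x : AlgebraicClosure ℚ_[ℓ]),
      aeval x Q = 0 ∧ τ x = x⁻¹ ∧ ∀ y, aeval y Q = 0 → y ≠ x → y ≠ x⁻¹ → τ y = y

def ConT (ℓ : ℕ) [Fact ℓ.Prime] (Q : ℚ_[ℓ][X]) : Prop :=
  ∀ F : IntermediateField ℚ_[ℓ] (AlgebraicClosure ℚ_[ℓ]), Unr ℓ F →
    ∃ (τ : AlgebraicClosure ℚ_[ℓ] ≃ₐ[F] AlgebraicClosure ℚ_[ℓ]) (x y : AlgebraicClosure ℚ_[ℓ]),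
      aeval x Q = 0 ∧ aeval y Q = 0 ∧ y ≠ x ∧ y ≠ x⁻¹ ∧ τ x = y ∧ τ y = x ∧
      ∀ z, aeval z Q = 0 → z ≠ x → z ≠ x⁻¹ → z ≠ y → z ≠ y⁻¹ → (τ z = z ∨ τ z = z⁻¹)

def ConU (ℓ : ℕ) [Fact ℓ.Prime] (Q : ℚ_[ℓ][X]) : Prop :=
  ∀ F : IntermediateField ℚ_[ℓ] (AlgebraicClosure ℚ_[ℓ]), Unr ℓ F →
    ∃ z₀ : AlgebraicClosure ℚ_[ℓ], aeval z₀ Q = 0 ∧
      ∀ x y, aeval x Q = 0 → aeval y Q = 0 → x ≠ z₀ → x ≠ z₀⁻¹ → y ≠ z₀ → y ≠ z₀⁻¹ →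
      ∃ τ : AlgebraicClosure ℚ_[ℓ] ≃ₐ[F] AlgebraicClosure ℚ_[ℓ],
        (τ z₀ = z₀ ∨ τ z₀ = z₀⁻¹) ∧ (τ x = y ∨ τ x = y⁻¹)

section
variable {ℓ : ℕ} [hℓ : Fact ℓ.Prime] {m : ℕ}
  {B : Matrix (Fin (2 * m + 3)) (Fin (2 * m + 3)) ℚ_[ℓ]}

theorem lt_c (hFORM2 : S_FORM2) (hTYPC : S_TYPC) (h2 : ℓ ≠ 2)
    (hm : ‖((2 * (m + 1) : ℕ) : ℚ_[ℓ])‖ = 1) (hB : Bᵀ = B) (hdet : B.det ≠ 0) :
    LocalType ℓ (2 * m + 3) B (ConC ℓ (m + 1)) := by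
  obtain ⟨T, c, hT, hc, hTc⟩ := hFORM2 ℓ h2 m B hB hdet
  obtain ⟨ε, hε, h⟩ := hTYPC ℓ h2 (m + 1) c (Nat.succ_pos m) hm hc
  refine ⟨T, _, ε, 0, hT, hTc, hε, fun k Q _ hk hmon hdeg hinv hclose => ?_⟩
  exact h k Q hk hmon (by omega) hinv hclose

theorem ne_two_of_lt {m : ℕ} (h : 2 * m + 2 < ℓ) : ℓ ≠ 2 := by omega

theorem lt_s (hFORM1 : S_FORM1) (hTYPS : S_TYPS) (hm : 2 * m + 2 < ℓ) (hB : Bᵀ = B)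
    (hdet : B.det ≠ 0) : LocalType ℓ (2 * m + 3) B (ConS ℓ) := by
  obtain ⟨A, hA⟩ := hTYPS ℓ m hm
  obtain ⟨T, c, hT, hc, hTc⟩ := hFORM1 ℓ (ne_two_of_lt hm) m B hB hdet A
  obtain ⟨ε, hε, h⟩ := hA c hc
  exact ⟨T, _, ε, 0, hT, hTc, hε, fun k Q _ hk hmon hdeg hinv hclose =>
    h k Q hk hmon (by omega) hinv hclose⟩

theorem lt_t (hFORM1 : S_FORM1) (hTYPT : S_TYPT) (hm : 2 * m + 2 < ℓ) (hm2 : 2 ≤ m) (hB : Bᵀ = B)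
    (hdet : B.det ≠ 0) : LocalType ℓ (2 * m + 3) B (ConT ℓ) := by
  obtain ⟨A, hA⟩ := hTYPT ℓ m hm hm2
  obtain ⟨T, c, hT, hc, hTc⟩ := hFORM1 ℓ (ne_two_of_lt hm) m B hB hdet A
  obtain ⟨ε, hε, h⟩ := hA c hc
  exact ⟨T, _, ε, 0, hT, hTc, hε, fun k Q _ hk hmon hdeg hinv hclose =>
    h k Q hk hmon (by omega) hinv hclose⟩

theorem lt_u (hFORM1 : S_FORM1) (hTYPU : S_TYPU) (hm : 2 * m + 2 < ℓ) (hm1 : 0 < m) (hB : Bᵀ = B)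
    (hdet : B.det ≠ 0) : LocalType ℓ (2 * m + 3) B (ConU ℓ) := by
  obtain ⟨A, hA⟩ := hTYPU ℓ m hm hm1
  obtain ⟨T, c, hT, hc, hTc⟩ := hFORM1 ℓ (ne_two_of_lt hm) m B hB hdet A
  obtain ⟨ε, hε, h⟩ := hA c hc
  exact ⟨T, _, ε, 0, hT, hTc, hε, fun k Q _ hk hmon hdeg hinv hclose =>
    h k Q hk hmon (by omega) hinv hclose⟩

/-- weakening -/
theorem LocalType.mono {N : ℕ} {B : Matrix (Fin N) (Fin N) ℚ_[ℓ]} {C₁ C₂ : ℚ_[ℓ][X] → Prop}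
    (h : LocalType ℓ N B C₁) (h12 : ∀ Q, C₁ Q → C₂ Q) : LocalType ℓ N B C₂ := by
  obtain ⟨T, R₀, ε, k₀, h1, h2, h3, h4⟩ := h
  exact ⟨T, R₀, ε, k₀, h1, h2, h3, fun k Q z a b c d e => h12 Q (h4 k Q z a b c d e)⟩

/-- the generic local type -/
theorem lt_x (hFORM1 : S_FORM1) (hTYPX : S_TYPX) (h2 : ℓ ≠ 2) (hB : Bᵀ = B) (hdet : B.det ≠ 0) :
    LocalType ℓ (2 * m + 3) B (ConX ℓ) := by
  obtain ⟨A, hA⟩ := hTYPX ℓ h2 m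
  obtain ⟨T, c, hT, hc, hTc⟩ := hFORM1 ℓ h2 m B hB hdet A
  obtain ⟨ε, k₀, hε, h⟩ := hA c hc
  exact ⟨T, _, ε, k₀, hT, hTc, hε, fun k Q hk₀ hk hmon hdeg _ hclose =>
    h k Q hk₀ hk hmon (by omega) hclose⟩

end

section
variable {K : Type} [Field K] [NumberField K] {N : ℕ} {S : Set (HeightOneSpectrum (𝓞 K))}
  {P : HeightOneSpectrum (𝓞 K) → ℚ[X]}

/-- simultaneous realisation of local types -/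
theorem realise (hMULTI : S_MULTI) (hFROB : S_FROB) (hCHAR : S_CHAR) (hN : Odd N) (hS : S.Finite)
    (ρ : ∀ (ℓ : ℕ) [Fact ℓ.Prime], GK K →* Matrix (Fin N) (Fin N) ℚ_[ℓ])
    (B : ∀ (ℓ : ℕ) [Fact ℓ.Prime], Matrix (Fin N) (Fin N) ℚ_[ℓ])
    (hsys : ∀ (ℓ : ℕ) [Fact ℓ.Prime], Orthogonal K N ℓ (ρ ℓ) (B ℓ) S P)
    (I : Type) [Fintype I] [Nonempty I] (p : I → ℕ) [hp : ∀ i, Fact (p i).Prime]
    (hinj : Function.Injective p) (hp2 : ∀ i, p i ≠ 2)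
    (hfull : ∀ i, FullLie (p i) (ρ (p i)) (B (p i)))
    (Con : ∀ i, ℚ_[p i][X] → Prop) (hlt : ∀ i, LocalType (p i) N (B (p i)) (Con i)) :
    ∃ (v : HeightOneSpectrum (𝓞 K)) (Q : ℚ[X]), v ∉ S ∧ P v = (X - 1) * Q ∧ Q.Monic ∧
      Q.natDegree = N - 1 ∧ (∀ i, (p i : 𝓞 K) ∉ v.asIdeal) ∧ ∀ i, Con i (Q.map (algebraMap ℚ ℚ_[p i])) ∧
        ∀ x : AlgebraicClosure ℚ_[p i], aeval x (Q.map (algebraMap ℚ ℚ_[p i])) = 0 →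
          x ≠ 0 ∧ aeval x⁻¹ (Q.map (algebraMap ℚ ℚ_[p i])) = 0 := by
  classical
  choose T R₀ ε k₀' hT hTR hε hcon using hlt
  have hchar : ∀ i, ∃ (δ : ℝ) (k₀ : ℕ), 0 < δ ∧
      ∀ (k : ℕ) (g : Matrix (Fin N) (Fin N) ℚ_[p i]), k₀ ≤ k → Isom (B (p i)) g →
      (∀ a b, ‖((((p i : ℚ_[p i]) ^ k)⁻¹ • (g - 1)) - T i) a b‖ < δ) →
      ∃ Q : ℚ_[p i][X], g.charpoly = (X - 1) * Q ∧ Q.Monic ∧ (resc (p i) k Q).Monic ∧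
        (resc (p i) k Q).natDegree = N - 1 ∧ (∀ j, ‖(resc (p i) k Q - R₀ i).coeff j‖ < ε i) ∧
        ∀ x : AlgebraicClosure ℚ_[p i], aeval x Q = 0 → x ≠ 0 ∧ aeval x⁻¹ Q = 0 := by
    intro i
    exact hCHAR (p i) (hp2 i) N hN (B (p i)) (T i) (R₀ i) (hsys (p i)).2.1 (hsys (p i)).2.2.1 (hTR i)
      (ε i) (hε i)
  choose δ k₀ hδ hchar using hchar
  have hδ' : ∃ d : ℝ, 0 < d ∧ ∀ i, d ≤ δ i := by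
    refine ⟨Finset.univ.inf' Finset.univ_nonempty δ, ?_, fun i => Finset.inf'_le _ (Finset.mem_univ i)⟩
    rw [Finset.lt_inf'_iff]
    exact fun i _ => hδ i
  obtain ⟨d, hd, hdδ⟩ := hδ'
  set k₁ : ℕ := (Finset.univ.sup k₀ + Finset.univ.sup k₀') + 1 with hk₁
  have hk₁' : ∀ i, k₀ i ≤ k₁ := fun i => by
    have := Finset.le_sup (f := k₀) (Finset.mem_univ i)
    omega
  have hk₁'' : ∀ i, k₀' i ≤ k₁ := fun i => by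
    have := Finset.le_sup (f := k₀') (Finset.mem_univ i)
    omega
  obtain ⟨O, hO, hOne, hOσ⟩ := hMULTI (GK K) N I p hinj (fun i => ρ (p i)) (fun i => (hsys (p i)).1) T
    (fun i => hfull i (T i) (hT i)) d k₁ hd
  have hfin : (S ∪ ⋃ i, {v : HeightOneSpectrum (𝓞 K) | (p i : 𝓞 K) ∈ v.asIdeal}).Finite :=
    hS.union (Set.finite_iUnion fun i => finite_above (p i) (hp i).out)
  obtain ⟨v, hv, σ, hσ, hσO⟩ := hFROB K O hO hOne _ hfin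
  rw [Set.mem_union, not_or, Set.mem_iUnion, not_exists] at hv
  have key : ∀ i, ∃ Q : ℚ_[p i][X], (P v).map (algebraMap ℚ ℚ_[p i]) = (X - 1) * Q ∧ Q.Monic ∧
      Q.natDegree = N - 1 ∧ Con i Q ∧
      ∀ x : AlgebraicClosure ℚ_[p i], aeval x Q = 0 → x ≠ 0 ∧ aeval x⁻¹ Q = 0 := by
    intro i
    obtain ⟨k, hk, hclose⟩ := hOσ σ⁻¹ hσO i
    obtain ⟨Q, hQ, hmon, hrm, hrd, hrc, hinv⟩ := hchar i k (ρ (p i) σ⁻¹) ((hk₁' i).trans hk)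
      ((hsys (p i)).2.2.2.1 _) (fun a b => (hclose a b).trans_le (hdδ i))
    rw [resc_natDegree] at hrd
    refine ⟨Q, ?_, hmon, hrd, hcon i k Q ((hk₁'' i).trans hk) (by omega) hmon hrd hinv hrc, hinv⟩
    rw [← hQ]
    exact ((hsys (p i)).2.2.2.2 v hv.1 (hv.2 i) σ hσ).symm
  obtain ⟨i₀⟩ := ‹Nonempty I›
  obtain ⟨Q₁, hQ₁, -⟩ := key i₀
  have hroot : (P v).IsRoot 1 := by
    have h1 := congrArg (eval 1) hQ₁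
    rw [eval_mul, eval_sub, eval_X, eval_one, sub_self, zero_mul] at h1
    have h2 := eval_map_rat (F := ℚ_[p i₀]) (P v) 1
    rw [map_one, h1] at h2
    exact (map_eq_zero _).1 h2.symm
  obtain ⟨Q, hQ⟩ := dvd_iff_isRoot.2 hroot
  rw [C_1] at hQ
  have hQQ : ∀ i, ∀ Q' : ℚ_[p i][X], (P v).map (algebraMap ℚ ℚ_[p i]) = (X - 1) * Q' →
      Q.map (algebraMap ℚ ℚ_[p i]) = Q' := by
    intro i Q' h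
    rw [hQ, Polynomial.map_mul, Polynomial.map_sub, map_X, Polynomial.map_one] at h
    refine mul_left_cancel₀ ?_ h
    have := X_sub_C_ne_zero (1 : ℚ_[p i])
    rwa [C_1] at this
  refine ⟨v, Q, hv.1, hQ, ?_, ?_, hv.2, fun i => ?_⟩
  · obtain ⟨Q', h1, h2, -⟩ := key i₀
    rw [← hQQ i₀ Q' h1] at h2
    exact monic_of_injective (algebraMap ℚ ℚ_[p i₀]).injective h2
  · obtain ⟨Q', h1, h2, h3, -⟩ := key i₀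
    rw [← hQQ i₀ Q' h1, natDegree_map] at h3
    exact h3
  · obtain ⟨Q', h1, h2, h3, h4, h5⟩ := key i
    rw [hQQ i Q' h1]
    exact ⟨h4, h5⟩

end

end Pool.Agent.Y142.ZI
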